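import Mathlib

/-! Linear systems of hypersurfaces with assigned multiple points and their linear expected
dimension: definitions. -/

namespace Pool.Agent.H745Z.FI

open MvPolynomial

/-- The space of forms of degree `d` in `n + 1` variables that vanish to order at least `m i` at the
point with homogeneous coordinates `p i`: the Taylor expansion at `p i` has no term of degree less
than `m i`. -/
noncomputable def linSys (n d s : ℕ) (m : Fin s → ℕ) (p : Fin s → Fin (n + 1) → ℂ) :
    Submodule ℂ (MvPolynomial (Fin (n + 1)) ℂ) :=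
  homogeneousSubmodule (Fin (n + 1)) ℂ d ⊓ ⨅ i : Fin s, ⨅ j : Fin (m i), LinearMap.ker
    ((homogeneousComponent (j : ℕ)).comp
      (aeval (fun k => X k + C (p i k)) :
        MvPolynomial (Fin (n + 1)) ℂ →ₐ[ℂ] MvPolynomial (Fin (n + 1)) ℂ).toLinearMap)

/-- `k_I`: equal to `d` for `I = ∅` and to `max (∑_{i ∈ I} m i - (|I| - 1) d) 0` otherwise -/
def kI (d : ℕ) {s : ℕ} (m : Fin s → ℕ) (I : Finset (Fin s)) : ℕ :=
  if I = ∅ then d else (∑ i ∈ I, m i) - (I.card - 1) * d

/-- linear virtual dimension -/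
def lvdim (n d s : ℕ) (m : Fin s → ℕ) : ℤ :=
  ∑ I ∈ (Finset.univ : Finset (Finset (Fin s))).filter (fun I => I.card ≤ min n s),
    (-1) ^ I.card * ((n + kI d m I - I.card).choose n : ℤ)

open Classical in
/-- linear expected dimension -/
noncomputable def ldim (n d s : ℕ) (m : Fin s → ℕ) : ℤ :=
  if ∃ m' : Fin s → ℕ, (∀ i, m' i ≤ m i) ∧ lvdim n d s m' < 0 then 0 else max (lvdim n d s m) 0

end Pool.Agent.H745Z.FI
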