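import Pool.Agent.H745Z.FIDefs

namespace Pool.Agent.H745Z.FI

open MvPolynomial

theorem eval_smul_hom {σ : Type} [Fintype σ] {f : MvPolynomial σ ℂ} {d : ℕ}
    (hf : f.IsHomogeneous d) (t : ℂ) (x : σ → ℂ) : eval (t • x) f = t ^ d * eval x f := by
  rw [eval_eq', eval_eq', Finset.mul_sum]
  apply Finset.sum_congr rfl
  intro a ha
  have h1 : ∑ i, a i = d := by
    have := hf (mem_support_iff.1 ha)
    rw [← this, Finsupp.weight_apply, Finsupp.sum_fintype _ _ (by simp)]
    simp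
  simp only [Pi.smul_apply, smul_eq_mul, mul_pow]
  rw [Finset.prod_mul_distrib, Finset.prod_pow_eq_pow_sum, h1]
  ring

theorem deg_shift {σ : Type} (f : MvPolynomial σ ℂ) (p : σ → ℂ) :
    (aeval (fun k => X k + C (p k)) f : MvPolynomial σ ℂ).totalDegree ≤ f.totalDegree := by
  conv_lhs => rw [f.as_sum, map_sum]
  apply totalDegree_finsetSum_le
  intro a ha
  rw [aeval_monomial]
  refine (totalDegree_mul _ _).trans ?_
  rw [algebraMap_eq, totalDegree_C, zero_add]
  refine le_trans ?_ (le_totalDegree ha)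
  refine (totalDegree_finsetProd _ _).trans ?_
  apply Finset.sum_le_sum
  intro k _
  refine (totalDegree_pow _ _).trans ?_
  have : (X k + C (p k) : MvPolynomial σ ℂ).totalDegree ≤ 1 := by
    refine (totalDegree_add _ _).trans ?_
    rw [totalDegree_X, totalDegree_C]
    simp
  nlinarith

theorem shift_inv {σ : Type} [Fintype σ] {f : MvPolynomial σ ℂ} {d : ℕ}
    (hf : f.IsHomogeneous d) (p : σ → ℂ)
    (hp : ∀ j < d, homogeneousComponent j
      (aeval (fun k => X k + C (p k)) f : MvPolynomial σ ℂ) = 0) (y : σ → ℂ) (c : ℂ) :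
    eval (y + c • p) f = eval y f := by
  set g : MvPolynomial σ ℂ := aeval (fun k => X k + C (p k)) f with hg
  have hdeg : g.totalDegree ≤ d := (deg_shift f p).trans hf.totalDegree_le
  have hgh : g.IsHomogeneous d := by
    rw [← sum_homogeneousComponent g]
    apply IsHomogeneous.sum
    intro j hj
    rcases lt_trichotomy j d with h | h | h
    · rw [hp j h]; exact isHomogeneous_zero _ _ _
    · rw [h]; exact homogeneousComponent_isHomogeneous _ _
    · rw [Finset.mem_range] at hj; omega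
  have he : ∀ x, eval x g = eval (x + p) f := by
    intro x
    rw [hg, ← coe_aeval_eq_eval, ← coe_aeval_eq_eval]
    have := congrArg (fun φ : MvPolynomial σ ℂ →ₐ[ℂ] ℂ => φ f)
      (comp_aeval (fun k => X k + C (p k)) (aeval x : MvPolynomial σ ℂ →ₐ[ℂ] ℂ))
    simp only [AlgHom.comp_apply, map_add, aeval_X, algHom_C, Algebra.algebraMap_self,
      RingHom.id_apply] at this
    exact this
  have h1 : ∀ (x : σ → ℂ) (s : ℂ), s ≠ 0 → eval (x + s • p) f = eval (x + p) f := by
    intro x s hs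
    have e1 : x + s • p = s • (s⁻¹ • x + p) := by
      rw [smul_add, smul_smul, mul_inv_cancel₀ hs, one_smul]
    rw [e1, eval_smul_hom hf, ← he, eval_smul_hom hgh, he, ← mul_assoc, ← mul_pow,
      mul_inv_cancel₀ hs, one_pow, one_mul]
  have h2 : ∀ (y : σ → ℂ) (c : ℂ), c ≠ -1 → eval (y + c • p) f = eval y f := by
    intro y c hc
    have := h1 (y - p) (c + 1) (fun h => hc (by linear_combination h))
    rw [sub_add_cancel, add_smul, one_smul] at this
    rw [← this]
    congr 2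
    abel
  by_cases hc : c = -1
  · rw [hc, ← h2 y (-1 / 2) (by norm_num), ← h2 (y + (-1 / 2 : ℂ) • p) (-1 / 2) (by norm_num)]
    congr 2
    rw [add_assoc, ← add_smul]
    norm_num
  · exact h2 y c hc

theorem linSys_eq_bot (p : Fin 3 → Fin 3 → ℂ) (hp : (Matrix.of p).det ≠ 0) :
    linSys 2 3 3 (fun _ => 3) p = ⊥ := by
  rw [eq_bot_iff]
  rintro f ⟨hf1, hf2⟩
  have hf : f.IsHomogeneous 3 := hf1
  have h2 : ∀ i, ∀ j < 3, homogeneousComponent j
      (aeval (fun k => X k + C (p i k)) f : MvPolynomial (Fin 3) ℂ) = 0 := by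
    intro i j hj
    simp only [SetLike.mem_coe, Submodule.mem_iInf, LinearMap.mem_ker] at hf2
    exact hf2 i ⟨j, hj⟩
  rw [Submodule.mem_bot]
  apply MvPolynomial.funext
  intro y
  have hu : IsUnit (Matrix.of p) := (Matrix.isUnit_iff_isUnit_det _).2 (isUnit_iff_ne_zero.2 hp)
  obtain ⟨c, hc⟩ := Matrix.vecMul_surjective_iff_isUnit.2 hu y
  have hy : y = ((0 + c 0 • p 0) + c 1 • p 1) + c 2 • p 2 := by
    rw [← hc]
    funext k
    simp [Matrix.vecMul, dotProduct, Fin.sum_univ_three]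
  rw [hy, shift_inv hf _ (h2 2), shift_inv hf _ (h2 1), shift_inv hf _ (h2 0)]
  have := eval_smul_hom hf 0 0
  simpa using this

theorem lv_all : ∀ a b c : Fin 4, 0 ≤ lvdim 2 3 3 ![a.val, b.val, c.val] := by decide +kernel

theorem lv_one : lvdim 2 3 3 (fun _ => 3) = 1 := by decide +kernel

theorem ldim_one : ldim 2 3 3 (fun _ => 3) = 1 := by
  unfold ldim
  rw [if_neg, lv_one]
  · rfl
  · rintro ⟨m', h1, h2⟩
    have := lv_all ⟨m' 0, Nat.lt_succ_of_le (h1 0)⟩ ⟨m' 1, Nat.lt_succ_of_le (h1 1)⟩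
      ⟨m' 2, Nat.lt_succ_of_le (h1 2)⟩
    have e : (![m' 0, m' 1, m' 2] : Fin 3 → ℕ) = m' := by
      funext i; fin_cases i <;> rfl
    simp only [e] at this
    omega

theorem main : ∃ P : MvPolynomial (Fin 3 × Fin 3) ℂ, P ≠ 0 ∧
    ∀ p : Fin 3 → Fin 3 → ℂ, eval (fun ij => p ij.1 ij.2) P ≠ 0 →
      (∀ i, p i ≠ 0) ∧
        (Module.finrank ℂ (linSys 2 3 3 (fun _ => 3) p) : ℤ) < ldim 2 3 3 (fun _ => 3) := by
  refine ⟨(Matrix.mvPolynomialX (Fin 3) (Fin 3) ℂ).det, Matrix.det_mvPolynomialX_ne_zero _ _, ?_⟩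
  intro p hp
  have hdet : (Matrix.of p).det ≠ 0 := by
    have := Matrix.eval_det_mvPolynomialX (m := Fin 3) (R := ℂ) (fun ij => p ij.1 ij.2)
    rw [this] at hp
    exact hp
  refine ⟨fun i hi => hdet (Matrix.det_eq_zero_of_row_eq_zero i (fun j => ?_)), ?_⟩
  · simp [hi]
  · rw [linSys_eq_bot p hdet, ldim_one]
    simp

end Pool.Agent.H745Z.FI
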