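import Mathlib

/-! Closure points, a stationary co-stationary set and ladders on a well-order of type omega one. -/

namespace Pool.Agent.H745Z.Om

open Set

/-- a well-order of type omega one -/
class Om1 (W : Type) [LinearOrder W] : Prop where
  wf : WellFoundedLT W
  ctbl : ∀ a : W, (Iic a).Countable
  unc : Uncountable W

variable {W : Type} [LinearOrder W] [h : Om1 W]

include h in
theorem exists_gt_of_not_countable {U : Set W} (hU : ¬ U.Countable) {S : Set W}
    (hS : S.Countable) : ∃ x ∈ U, ∀ s ∈ S, s < x := by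
  by_contra hc
  push Not at hc
  apply hU
  refine (hS.biUnion (fun s _ => h.ctbl s)).mono ?_
  intro x hx
  obtain ⟨s, hs, hxs⟩ := hc x hx
  exact mem_biUnion hs hxs

include h in
theorem bdd {S : Set W} (hS : S.Countable) : ∃ x, ∀ s ∈ S, s < x := by
  have := h.unc
  obtain ⟨x, -, hx⟩ := exists_gt_of_not_countable (U := univ) not_countable_univ hS
  exact ⟨x, hx⟩

/-- `α` is a nonzero closure point of `g` -/
def Cl (g : W → W) (α : W) : Prop := (∃ β, β < α) ∧ ∀ β < α, g β < α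

include h in
theorem exists_cl (g : W → W) (a : W) : ∃ α, a < α ∧ Cl g α := by
  have := h.wf
  have h1 : ∀ x : W, ∃ y, x < y ∧ ∀ β ≤ x, g β < y := by
    intro x
    obtain ⟨y, hy⟩ := bdd (((h.ctbl x).image g).insert x)
    exact ⟨y, hy x (mem_insert _ _), fun β hβ => hy _ (mem_insert_of_mem _ ⟨β, hβ, rfl⟩)⟩
  choose f hf1 hf2 using h1
  let u : ℕ → W := fun n => f^[n] a
  have hu : ∀ n, u (n + 1) = f (u n) := fun n => Function.iterate_succ_apply' f n a
  obtain ⟨z, hz⟩ := bdd (countable_range u)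
  let T : Set W := {x | ∀ n, u n < x}
  have hT : T.Nonempty := ⟨z, fun n => hz _ ⟨n, rfl⟩⟩
  let α := wellFounded_lt.min T hT
  have hα : α ∈ T := wellFounded_lt.min_mem T hT
  refine ⟨α, hα 0, ⟨a, hα 0⟩, fun β hβ => ?_⟩
  have : β ∉ T := fun hb => wellFounded_lt.not_lt_min T hb hβ
  simp only [T, mem_ofPred_eq, not_forall, not_lt] at this
  obtain ⟨n, hn⟩ := this
  have h2 := hf2 (u n) β hn
  rw [← hu] at h2
  exact h2.trans (hα _)

include h in
/-- a stationary co-stationary set -/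
theorem exists_split {ι : Type} [Countable ι] (P : ι → Set W)
    (hP : ∀ x y : W, (∀ i, x ∈ P i ↔ y ∈ P i) → x = y) :
    ∃ E : Set W, (∀ g, ∃ α ∈ E, Cl g α) ∧ (∀ g, ∃ α ∉ E, Cl g α) := by
  by_contra hc
  push Not at hc
  have h1 : ∀ i, ∃ g : W → W, ∀ x y, Cl g x → Cl g y → (x ∈ P i ↔ y ∈ P i) := by
    intro i
    by_cases h2 : ∀ g, ∃ α ∈ P i, Cl g α
    · obtain ⟨g, hg⟩ := hc (P i) h2
      refine ⟨g, fun x y hx hy => ?_⟩
      have hx' : x ∈ P i := by by_contra h'; exact hg x h' hx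
      have hy' : y ∈ P i := by by_contra h'; exact hg y h' hy
      simp [hx', hy']
    · push Not at h2
      obtain ⟨g, hg⟩ := h2
      refine ⟨g, fun x y hx hy => ?_⟩
      have hx' : x ∉ P i := fun h' => hg x h' hx
      have hy' : y ∉ P i := fun h' => hg y h' hy
      simp [hx', hy']
  choose g hg using h1
  have h3 : ∀ β : W, ∃ y, ∀ i, g i β < y := by
    intro β
    obtain ⟨y, hy⟩ := bdd (countable_range (fun i => g i β))
    exact ⟨y, fun i => hy _ ⟨i, rfl⟩⟩
  choose G hG using h3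
  have := h.unc
  obtain ⟨a⟩ : Nonempty W := inferInstance
  obtain ⟨x, -, hx⟩ := exists_cl G a
  obtain ⟨y, hxy, hy⟩ := exists_cl G x
  have hcl : ∀ i z, Cl G z → Cl (g i) z := fun i z hz =>
    ⟨hz.1, fun β hβ => (hG β i).trans (hz.2 β hβ)⟩
  exact hxy.ne (hP x y (fun i => hg i x y (hcl i x hx) (hcl i y hy)))

omit h in
theorem finset_bound {α : W} (h0 : ∃ β, β < α) (s : Finset W) (hs : ∀ x ∈ s, x < α) :
    ∃ β < α, ∀ x ∈ s, x ≤ β := by
  classical
  obtain ⟨β, hβ⟩ := h0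
  have hne : (insert β s).Nonempty := Finset.insert_nonempty _ _
  refine ⟨(insert β s).max' hne, ?_, fun x hx => Finset.le_max' _ _ (Finset.mem_insert_of_mem hx)⟩
  have := Finset.max'_mem _ hne
  rcases Finset.mem_insert.1 this with h1 | h1
  · rw [h1]; exact hβ
  · exact hs _ h1

include h in
/-- closure under a finitary operation on parameters with finite supports -/
theorem exists_closed {P : Type} (supp : P → Finset W)
    (hc : ∀ β : W, {p | ∀ x ∈ supp p, x ≤ β}.Countable) (G : List P → Set W)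
    (hG : ∀ l, (G l).Countable) {E : Set W} (hE : ∀ g, ∃ α ∈ E, Cl g α) :
    ∃ α ∈ E, (∃ β, β < α) ∧ (∀ β < α, ∃ γ, β < γ ∧ γ < α) ∧
      ∀ l : List P, (∀ p ∈ l, ∀ x ∈ supp p, x < α) → ∀ y ∈ G l, y < α := by
  classical
  have h1 : ∀ β : W, ∃ y, β < y ∧ ∀ l : List P, (∀ p ∈ l, ∀ x ∈ supp p, x ≤ β) →
      ∀ z ∈ G l, z < y := by
    intro β
    have hT := (hc β).to_subtype
    have h2 : (⋃ l : List {p | ∀ x ∈ supp p, x ≤ β}, G (l.map Subtype.val)).Countable :=
      countable_iUnion (fun l => hG _)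
    obtain ⟨y, hy⟩ := bdd (h2.insert β)
    refine ⟨y, hy β (mem_insert _ _), fun l hl z hz => hy z (mem_insert_of_mem _ ?_)⟩
    refine mem_iUnion.2 ⟨l.attach.map (fun p : {x // x ∈ l} =>
        (⟨p.1, hl p.1 p.2⟩ : {p | ∀ x ∈ supp p, x ≤ β})), ?_⟩
    rw [List.map_map]
    have : (Subtype.val ∘ fun p : {x // x ∈ l} =>
        (⟨p.1, hl p.1 p.2⟩ : {p | ∀ x ∈ supp p, x ≤ β})) = Subtype.val := rfl
    rw [this, List.attach_map_subtype_val]
    exact hz
  choose g hg1 hg2 using h1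
  obtain ⟨α, hα, h0, hcl⟩ := hE g
  refine ⟨α, hα, h0, fun β hβ => ⟨g β, hg1 β, hcl β hβ⟩, fun l hl y hy => ?_⟩
  obtain ⟨β, hβ, hb⟩ := finset_bound h0 (l.toFinset.biUnion supp) (by
    intro x hx
    obtain ⟨p, hp, hxp⟩ := Finset.mem_biUnion.1 hx
    exact hl p (List.mem_toFinset.1 hp) x hxp)
  refine (hg2 β l (fun p hp x hx => hb x ?_) y hy).trans (hcl β hβ)
  exact Finset.mem_biUnion.2 ⟨p, List.mem_toFinset.2 hp, hx⟩

include h in
theorem finset_countable (β : W) : {s : Finset W | ∀ x ∈ s, x ≤ β}.Countable := by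
  have := countable_ofPred_finite_subset (h.ctbl β)
  have h2 := this.preimage_of_injOn (f := fun s : Finset W => (s : Set W))
    (Finset.coe_injective.injOn)
  refine h2.mono ?_
  intro s hs
  exact ⟨s.finite_toSet, fun x hx => hs x hx⟩

include h in
/-- ladders meeting cofinally every set of a countable family that is cofinal -/
theorem exists_ladder {ι : Type} [Countable ι] (U : ι → Set W) (α : W) :
    ∃ N : Set W, N ⊆ Iio α ∧ (∀ β < α, (N ∩ Iic β).Finite) ∧
      ∀ i, (∀ β < α, ∃ γ ∈ U i, β < γ ∧ γ < α) → ∀ β < α, ∃ γ ∈ N ∩ U i, β < γ := by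
  classical
  let I := {i // ∀ β < α, ∃ γ ∈ U i, β < γ ∧ γ < α}
  have hcI : (Iio α).Countable := (h.ctbl α).mono Iio_subset_Iic_self
  have := hcI.to_subtype
  by_cases hne : Nonempty (I × Iio α)
  · obtain ⟨e, he⟩ := exists_surjective_nat (I × Iio α)
    have h1 : ∀ n : ℕ, ∃ γ ∈ U (e n).1.1, γ < α ∧ ∀ m ≤ n, ((e m).2 : W) < γ := by
      intro n
      obtain ⟨β, hβ, hb⟩ := finset_bound ⟨_, (e 0).2.2⟩
        ((Finset.range (n + 1)).image (fun m => ((e m).2 : W))) (by
          intro x hx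
          obtain ⟨m, -, rfl⟩ := Finset.mem_image.1 hx
          exact (e m).2.2)
      obtain ⟨γ, h1, h2, h3⟩ := (e n).1.2 β hβ
      refine ⟨γ, h1, h3, fun m hm => lt_of_le_of_lt (hb _ ?_) h2⟩
      exact Finset.mem_image.2 ⟨m, Finset.mem_range.2 (by omega), rfl⟩
    choose η h1 h2 h3 using h1
    refine ⟨range η, ?_, ?_, ?_⟩
    · rintro _ ⟨n, rfl⟩; exact h2 n
    · intro β hβ
      obtain ⟨m, hm⟩ := he ((e 0).1, ⟨β, hβ⟩)
      refine ((finite_Iio m).image η).subset ?_
      rintro _ ⟨⟨n, rfl⟩, hn⟩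
      refine ⟨n, ?_, rfl⟩
      by_contra hc
      have := h3 n m (not_lt.1 hc)
      rw [hm] at this
      exact absurd hn (not_le.2 this)
    · intro i hi β hβ
      obtain ⟨m, hm⟩ := he (⟨i, hi⟩, ⟨β, hβ⟩)
      refine ⟨η m, ⟨⟨m, rfl⟩, ?_⟩, ?_⟩
      · have := h1 m
        rw [hm] at this
        exact this
      · have := h3 m m le_rfl
        rw [hm] at this
        exact this
  · refine ⟨∅, empty_subset _, fun β _ => by simp, fun i hi β hβ => ?_⟩
    exact absurd ⟨(⟨i, hi⟩, ⟨β, hβ⟩)⟩ hne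

omit h in
/-- a second countable Hausdorff space of size aleph one, well-ordered in type omega one, in which
every nonempty open set is uncountable -/
theorem exists_W : ∃ (W : Type) (_ : LinearOrder W) (_ : TopologicalSpace W),
    Om1 W ∧ T2Space W ∧ SecondCountableTopology W ∧
      ∀ U : Set W, IsOpen U → U.Nonempty → ¬ U.Countable := by
  have h1 : Cardinal.aleph 1 ≤ Cardinal.mk ℝ := by
    rw [Cardinal.mk_real]; exact Cardinal.aleph_one_le_continuum
  obtain ⟨T, hT⟩ := Cardinal.le_mk_iff_exists_set.1 h1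
  let V : Set ℝ := {x | x ∈ T ∧ ∃ O : Set ℝ, IsOpen O ∧ x ∈ O ∧ (O ∩ T).Countable}
  have hV : V.Countable := by
    have h2 : ∀ x : ℝ, ∃ O : Set ℝ, x ∈ V → IsOpen O ∧ x ∈ O ∧ (O ∩ T).Countable := by
      intro x
      by_cases hx : x ∈ V
      · obtain ⟨O, hO⟩ := hx.2
        exact ⟨O, fun _ => hO⟩
      · exact ⟨∅, fun h => absurd h hx⟩
    choose O hO using h2
    obtain ⟨t, ht1, ht2, ht3⟩ := TopologicalSpace.countable_cover_nhdsWithin (f := O) (s := V)
      (fun x hx => mem_nhdsWithin_of_mem_nhds ((hO x hx).1.mem_nhds (hO x hx).2.1))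
    refine (ht2.biUnion (fun x hx => (hO x (ht1 hx)).2.2)).mono ?_
    intro x hx
    obtain ⟨y, hy, hxy⟩ := mem_iUnion₂.1 (ht3 hx)
    exact mem_biUnion hy ⟨hxy, hx.1⟩
  have hTu : ¬ T.Countable := by
    rw [← Cardinal.le_aleph0_iff_set_countable, hT, not_le]
    exact Cardinal.aleph0_lt_aleph_one
  have hYu : ¬ (T \ V).Countable := by
    intro hc
    apply hTu
    refine (hc.union hV).mono ?_
    intro x hx
    by_cases hxV : x ∈ V
    · exact Or.inr hxV
    · exact Or.inl ⟨hx, hxV⟩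
  have hY : Cardinal.mk ↥(T \ V) ≤ Cardinal.aleph 1 := by
    rw [← hT]; exact Cardinal.mk_le_mk_of_subset sdiff_subset
  obtain ⟨lo, wf, hord⟩ := Cardinal.exists_ord_eq_type_lt ↥(T \ V)
  refine ⟨↥(T \ V), lo, inferInstance, @Om1.mk _ lo wf ?_ ?_, inferInstance, inferInstance, ?_⟩
  · intro a
    have h3 := @Cardinal.mk_Iio_lt _ lo wf a hord
    have h4 : (@Iio _ lo.toPreorder a).Countable := by
      rw [← Cardinal.le_aleph0_iff_set_countable, ← Order.lt_succ_iff, Cardinal.succ_aleph0]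
      exact h3.trans_le hY
    rw [← @Iio_insert _ lo.toPartialOrder a]
    exact h4.insert a
  · exact uncountable_iff_not_countable _ |>.2 (fun hc => hYu (countable_coe_iff.1 hc))
  · rintro U ⟨O, hO, rfl⟩ ⟨x, hx⟩ hc
    apply x.2.2
    refine ⟨x.2.1, O, hO, hx, ?_⟩
    refine ((hc.image Subtype.val).union hV).mono ?_
    rintro y ⟨hy1, hy2⟩
    by_cases hyV : y ∈ V
    · exact Or.inr hyV
    · exact Or.inl ⟨⟨y, hy2, hyV⟩, hy1, rfl⟩

theorem exists_split' [TopologicalSpace W] [T2Space W] [SecondCountableTopology W] :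
    ∃ E : Set W, (∀ g, ∃ α ∈ E, Cl g α) ∧ (∀ g, ∃ α ∉ E, Cl g α) := by
  have := (TopologicalSpace.countable_countableBasis W).to_subtype
  refine exists_split (ι := TopologicalSpace.countableBasis W) Subtype.val (fun x y hxy => ?_)
  by_contra hne
  obtain ⟨u, hu1, hu2, hu3⟩ := (TopologicalSpace.isBasis_countableBasis W).exists_subset_of_mem_open
    (mem_compl_singleton_iff.2 hne) isOpen_compl_singleton
  exact hu3 ((hxy ⟨u, hu1⟩).1 hu2) rfl

end Pool.Agent.H745Z.Om
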