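import Pool.Agent.H745Z.GameDefs
import Pool.Agent.H745Z.Omega1

/-! A zero-dimensional Hausdorff space on which the dense-families game is undetermined. -/

namespace Pool.Agent.H745Z.GameA

open Set Pool.Agent.H745Z.Game Pool.Agent.H745Z.Om

variable {W : Type} [LinearOrder W]

/-- ladder data on a stationary co-stationary set -/
structure Lad (E : Set W) (L : W → Set W) : Prop where
  self : ∀ ξ, ξ ∈ L ξ
  le : ∀ ξ, ∀ x ∈ L ξ, x ≤ ξ
  fin : ∀ ξ α, α < ξ → (L ξ ∩ Iic α).Finite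
  out : ∀ ξ, ξ ∉ E → L ξ = {ξ}
  cof : ∀ ξ ∈ E, (∀ β < ξ, ∃ γ, β < γ ∧ γ < ξ) → ∀ β < ξ, ∃ γ ∈ L ξ, β < γ ∧ γ < ξ

theorem exists_lad [Om1 W] (E : Set W) : ∃ L, Lad E L := by
  classical
  have h1 := fun α : W => exists_ladder (ι := Unit) (fun _ => (univ : Set W)) α
  choose N h1 h2 h3 using h1
  refine ⟨fun ξ => if ξ ∈ E then insert ξ (N ξ) else {ξ}, ?_, ?_, ?_, ?_, ?_⟩
  · intro ξ; by_cases h : ξ ∈ E <;> simp [h]
  · intro ξ x hx
    by_cases h : ξ ∈ E
    · simp only [h, if_true] at hx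
      rcases hx with rfl | hx
      · exact le_rfl
      · exact (h1 ξ hx).le
    · simp only [h, if_false] at hx
      exact le_of_eq hx
  · intro ξ α hα
    by_cases h : ξ ∈ E
    · simp only [h, if_true]
      refine ((h2 ξ α hα).insert ξ).subset ?_
      rintro x ⟨hx | hx, hx'⟩
      · exact Or.inl hx
      · exact Or.inr ⟨hx, hx'⟩
    · simp only [h, if_false]
      exact (finite_singleton ξ).subset inter_subset_left
  · intro ξ h; simp [h]
  · intro ξ h hl β hβ
    obtain ⟨γ, ⟨hγ, -⟩, hβγ⟩ := h3 ξ () (fun β hβ => by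
      obtain ⟨γ, h1, h2⟩ := hl β hβ
      exact ⟨γ, trivial, h1, h2⟩) β hβ
    refine ⟨γ, ?_, hβγ, h1 ξ hγ⟩
    simp only [h, if_true]
    exact Or.inr hγ

/-- basic sets -/
def B (L : W → Set W) (p : Finset W × Finset W) : Set (Finset W) :=
  {t | ∀ ξ ∈ p.2, ∀ x ∈ L ξ, (x ∈ t ↔ x ∈ p.1)}

theorem B_self (L : W → Set W) (p : Finset W × Finset W) : p.1 ∈ B L p :=
  fun _ _ _ _ => Iff.rfl

theorem B_sub {L : W → Set W} {p : Finset W × Finset W} {t : Finset W} (ht : t ∈ B L p) :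
    B L (t, p.2) ⊆ B L p := fun _ hu ξ hξ x hx => (hu ξ hξ x hx).trans (ht ξ hξ x hx)

/-- the topology -/
@[reducible] def top (L : W → Set W) : TopologicalSpace (Finset W) where
  IsOpen U := ∀ t ∈ U, ∃ F, B L (t, F) ⊆ U
  isOpen_univ := fun _ _ => ⟨∅, subset_univ _⟩
  isOpen_inter := by
    classical
    intro U V hU hV t ht
    obtain ⟨F, hF⟩ := hU t ht.1
    obtain ⟨G, hG⟩ := hV t ht.2
    refine ⟨F ∪ G, fun u hu => ⟨hF ?_, hG ?_⟩⟩
    · exact fun ξ hξ => hu ξ (Finset.mem_union_left _ hξ)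
    · exact fun ξ hξ => hu ξ (Finset.mem_union_right _ hξ)
  isOpen_sUnion := by
    intro S hS t ⟨U, hU, ht⟩
    obtain ⟨F, hF⟩ := hS U hU t ht
    exact ⟨F, fun u hu => ⟨U, hU, hF hu⟩⟩

theorem B_open (L : W → Set W) (p : Finset W × Finset W) : (top L).IsOpen (B L p) :=
  fun _ ht => ⟨p.2, B_sub ht⟩

theorem B_compl_open (L : W → Set W) (p : Finset W × Finset W) : (top L).IsOpen (B L p)ᶜ := by
  intro t ht
  refine ⟨p.2, fun u hu hup => ht ?_⟩
  exact fun ξ hξ x hx => (hu ξ hξ x hx).symm.trans (hup ξ hξ x hx)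

theorem t35 {L : W → Set W} (hL : ∀ ξ, ξ ∈ L ξ) : @T35Space _ (top L) := by
  letI := top L
  have hcl : ∀ p, IsClopen (B L p) := fun p => ⟨⟨B_compl_open L p⟩, B_open L p⟩
  have h1 : CompletelyRegularSpace (Finset W) := by
    apply CompletelyRegularSpace.of_isTopologicalBasis_clopens
    apply TopologicalSpace.isTopologicalBasis_of_isOpen_of_nhds
    · exact fun u hu => hu.isOpen
    · intro a u ha hu
      obtain ⟨F, hF⟩ := hu a ha
      exact ⟨B L (a, F), hcl _, B_self L (a, F), hF⟩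
  have h2 : T0Space (Finset W) := by
    rw [t0Space_iff_inseparable]
    intro s t hst
    ext x
    have := (inseparable_iff_forall_isOpen.1 hst (B L (s, {x})) (B_open L _)).1 (B_self L _)
    exact (this x (Finset.mem_singleton_self x) x (hL x)).symm
  exact {}

theorem param_countable [Om1 W] (β : W) :
    {p : Finset W × Finset W | ∀ x ∈ p.1 ∪ p.2, x ≤ β}.Countable := by
  refine ((finset_countable β).prod (finset_countable β)).mono ?_
  intro p hp
  exact ⟨fun x hx => hp x (Finset.mem_union_left _ hx), fun x hx => hp x (Finset.mem_union_right _ hx)⟩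

theorem not_one [Om1 W] {E : Set W} {L : W → Set W} (hL : Lad E L)
    (hE : ∀ g, ∃ α ∉ E, Cl g α) :
    ¬ OneWins (@DenseFamilies _ (top L)) (@DenseFamilies _ (top L)) := by
  letI := top L
  rintro ⟨σ, hσ, hwin⟩
  have h1 : ∀ (l : List (Set (Set (Finset W)) × Set (Finset W))) (p : Finset W × Finset W),
      ∃ U ∈ σ l, ∃ q : Finset W × Finset W, q.1 ∈ B L p ∧ B L q ⊆ U := by
    intro l p
    obtain ⟨t, ht1, U, hU, ht2⟩ := (hσ l).2.inter_open_nonempty (B L p) (B_open L p) ⟨_, B_self L p⟩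
    obtain ⟨F, hF⟩ := (hσ l).1 U hU t ht2
    exact ⟨U, hU, (t, F), ht1, hF⟩
  choose R hR Q hQ1 hQ2 using h1
  let H : List (Finset W × Finset W) → List (Set (Set (Finset W)) × Set (Finset W)) :=
    fun ps => ps.rec [] (fun p _ l => l ++ [(σ l, R l p)])
  let G : List (Finset W × Finset W) → Set W := fun ps =>
    match ps with
    | [] => ∅
    | p :: ps => ↑((Q (H ps) p).1 ∪ (Q (H ps) p).2)
  obtain ⟨α, hα, h0, -, hcl⟩ := exists_closed (fun p : Finset W × Finset W => p.1 ∪ p.2)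
    param_countable G (by
      intro l
      cases l with
      | nil => exact countable_empty
      | cons p ps => exact Finset.countable_toSet _) (E := Eᶜ) hE
  have hc : {p : Finset W × Finset W | ∀ x ∈ p.1 ∪ p.2, x < α}.Countable :=
    (param_countable α).mono (fun p hp x hx => (hp x hx).le)
  obtain ⟨e, he⟩ := hc.exists_eq_range ⟨(∅, ∅), by simp⟩
  have he1 : ∀ n, ∀ x ∈ (e n).1 ∪ (e n).2, x < α := fun n => by
    have : e n ∈ range e := ⟨n, rfl⟩
    rw [← he] at this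
    exact this
  let ℓ : ℕ → List (Finset W × Finset W) := fun n => n.rec [] (fun n l => e n :: l)
  have hℓ : ∀ n, ∀ p ∈ ℓ n, ∀ x ∈ p.1 ∪ p.2, x < α := by
    intro n
    induction n with
    | zero => intro p hp; cases hp
    | succ n ih =>
      intro p hp
      rcases List.mem_cons.1 hp with rfl | hp
      · exact he1 n
      · exact ih p hp
  have hh : ∀ n, hist (fun n => σ (H (ℓ n))) (fun n => R (H (ℓ n)) (e n)) n = H (ℓ n) := by
    intro n
    induction n with
    | zero => rfl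
    | succ n ih =>
      rw [hist, ih]
  apply hwin (fun n => σ (H (ℓ n))) (fun n => R (H (ℓ n)) (e n)) (fun n => by rw [hh])
    (fun n => hR _ _)
  constructor
  · rintro _ ⟨n, rfl⟩
    exact (hσ _).1 _ (hR _ _)
  rw [dense_iff_inter_open]
  rintro O hO ⟨s, hs⟩
  obtain ⟨F, hF⟩ := hO s hs
  have hfin : (⋃ ξ ∈ F.filter (α < ·), L ξ ∩ Iic α).Finite :=
    (Finset.finite_toSet _).biUnion (fun ξ hξ => hL.fin ξ α (Finset.mem_filter.1 hξ).2)
  let F' : Finset W := (F ∪ hfin.toFinset).filter (· < α)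
  have hp : (s.filter (· < α), F') ∈ range e := by
    rw [← he]
    intro x hx
    rcases Finset.mem_union.1 hx with hx | hx
    · exact (Finset.mem_filter.1 hx).2
    · exact (Finset.mem_filter.1 hx).2
  obtain ⟨n, hn⟩ := hp
  have hq := hcl (ℓ (n + 1)) (hℓ (n + 1))
  have hq1 := hQ1 (H (ℓ n)) (e n)
  have hq2 := hQ2 (H (ℓ n)) (e n)
  set q := Q (H (ℓ n)) (e n) with hqdef
  have hq' : ∀ y ∈ q.1 ∪ q.2, y < α := fun y hy => hq y (Finset.mem_coe.2 hy)
  refine ⟨q.1 ∪ s.filter (α ≤ ·), hF ?_, ⟨_, ⟨n, rfl⟩, hq2 ?_⟩⟩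
  · intro ξ hξ x hx
    simp only [Finset.mem_union, Finset.mem_filter]
    by_cases hxα : x < α
    · have : x ∈ q.1 ↔ x ∈ s := by
        rw [hn] at hq1
        have h3 : ∃ ξ' ∈ F', x ∈ L ξ' := by
          rcases lt_trichotomy ξ α with h | h | h
          · exact ⟨ξ, Finset.mem_filter.2 ⟨Finset.mem_union_left _ hξ, h⟩, hx⟩
          · rw [h, hL.out α hα] at hx
            exact absurd hx hxα.ne
          · refine ⟨x, Finset.mem_filter.2 ⟨Finset.mem_union_right _ ?_, hxα⟩, hL.self x⟩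
            rw [Finite.mem_toFinset]
            exact mem_biUnion (Finset.mem_coe.2 (Finset.mem_filter.2 ⟨hξ, h⟩)) ⟨hx, hxα.le⟩
        obtain ⟨ξ', h4, h5⟩ := h3
        rw [hq1 ξ' h4 x h5]
        simp [hxα]
      rw [this]
      simp [not_le.2 hxα]
    · have : x ∉ q.1 := fun h => hxα (hq' x (Finset.mem_union_left _ h))
      simp [this, not_lt.1 hxα]
  · intro ξ hξ x hx
    have : x < α := (hL.le ξ x hx).trans_lt (hq' ξ (Finset.mem_union_right _ hξ))
    simp [not_le.2 this]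

theorem not_two [Om1 W] {E : Set W} {L : W → Set W} (hL : Lad E L)
    (hE : ∀ g, ∃ α ∈ E, Cl g α) :
    ¬ TwoWins (@DenseFamilies _ (top L)) (@DenseFamilies _ (top L)) := by
  letI := top L
  rintro ⟨τ, hτ, hwin⟩
  have h1 : ∀ l : List (Set (Set (Finset W)) × Set (Finset W)), ∃ p : Finset W × Finset W,
      ∀ q : Finset W × Finset W, ∃ 𝒰 ∈ DenseFamilies (Finset W),
        (B L q ⊆ B L p → τ l 𝒰 ⊆ B L q) := by
    intro l
    by_contra hc
    push Not at hc
    choose f hf using hc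
    have hD : range (fun p => B L (f p)) ∈ DenseFamilies (Finset W) := by
      have hu : ({univ} : Set (Set (Finset W))) ∈ DenseFamilies (Finset W) := by
        refine ⟨?_, by simp⟩
        rintro _ rfl
        exact isOpen_univ
      constructor
      · rintro _ ⟨p, rfl⟩
        exact B_open L _
      · rw [dense_iff_inter_open]
        rintro O hO ⟨s, hs⟩
        obtain ⟨F, hF⟩ := hO s hs
        exact ⟨(f (s, F)).1, hF ((hf (s, F) _ hu).1 (B_self L _)), _, ⟨(s, F), rfl⟩, B_self L _⟩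
    obtain ⟨p, hp⟩ := hτ l _ hD
    exact (hf p _ hD).2 (by rw [← hp])
  choose P Y hY1 hY2 using h1
  let H : List (Finset W × Finset W) → List (Set (Set (Finset W)) × Set (Finset W)) :=
    fun ps => ps.rec [] (fun p _ l => l ++ [(Y l p, τ l (Y l p))])
  obtain ⟨α, hα, h0, hlim, hcl⟩ := exists_closed (fun p : Finset W × Finset W => p.1 ∪ p.2)
    param_countable (fun ps => ↑((P (H ps)).1 ∪ (P (H ps)).2)) (fun _ => Finset.countable_toSet _) hE
  have h2 : ∀ ps : List (Finset W × Finset W), ∃ q : Finset W × Finset W,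
      (∀ p ∈ ps, ∀ x ∈ p.1 ∪ p.2, x < α) → (∀ x ∈ q.1 ∪ q.2, x < α) ∧
        B L q ⊆ B L (P (H ps)) ∧ ∃ γ ∈ L α, ∀ t ∈ B L q, γ ∈ t := by
    intro ps
    by_cases hps : ∀ p ∈ ps, ∀ x ∈ p.1 ∪ p.2, x < α
    swap
    · exact ⟨(∅, ∅), fun h => absurd h hps⟩
    have h3 := hcl ps hps
    obtain ⟨β, hβ, hb⟩ := finset_bound h0 _ (fun x hx => h3 x (Finset.mem_coe.2 hx))
    obtain ⟨γ, hγ, hβγ, hγα⟩ := hL.cof α hα hlim β hβ
    refine ⟨(insert γ (P (H ps)).1, insert γ (P (H ps)).2), fun _ => ⟨?_, ?_, γ, hγ, ?_⟩⟩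
    · intro x hx
      simp only [Finset.mem_union, Finset.mem_insert] at hx
      rcases hx with (rfl | hx) | (rfl | hx)
      · exact hγα
      · exact h3 x (Finset.mem_coe.2 (Finset.mem_union_left _ hx))
      · exact hγα
      · exact h3 x (Finset.mem_coe.2 (Finset.mem_union_right _ hx))
    · intro t ht ξ hξ x hx
      rw [ht ξ (Finset.mem_insert_of_mem hξ) x hx, Finset.mem_insert]
      have : x < γ := ((hL.le ξ x hx).trans (hb ξ (Finset.mem_union_right _ hξ))).trans_lt hβγ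
      simp [this.ne]
    · intro t ht
      exact (ht γ (Finset.mem_insert_self _ _) γ (hL.self γ)).2 (Finset.mem_insert_self _ _)
  choose S hS using h2
  let ℓ : ℕ → List (Finset W × Finset W) := fun n => n.rec [] (fun _ l => S l :: l)
  have hℓ : ∀ n, ∀ p ∈ ℓ n, ∀ x ∈ p.1 ∪ p.2, x < α := by
    intro n
    induction n with
    | zero => intro p hp; cases hp
    | succ n ih =>
      intro p hp
      rcases List.mem_cons.1 hp with rfl | hp
      · exact (hS _ ih).1
      · exact ih p hp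
  have hh : ∀ n, hist (fun n => Y (H (ℓ n)) (S (ℓ n)))
      (fun n => τ (H (ℓ n)) (Y (H (ℓ n)) (S (ℓ n)))) n = H (ℓ n) := by
    intro n
    induction n with
    | zero => rfl
    | succ n ih =>
      rw [hist, ih]
  have hw := hwin (fun n => Y (H (ℓ n)) (S (ℓ n)))
    (fun n => τ (H (ℓ n)) (Y (H (ℓ n)) (S (ℓ n)))) (fun n => hY1 _ _) (fun n => by rw [hh])
  obtain ⟨t, ht1, _, ⟨n, rfl⟩, ht2⟩ := hw.2.inter_open_nonempty (B L (∅, {α})) (B_open L _)
    ⟨_, B_self L _⟩
  obtain ⟨-, h4, γ, hγ, h5⟩ := hS _ (hℓ n)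
  have := (ht1 α (Finset.mem_singleton_self α) γ hγ).1 (h5 t (hY2 _ _ h4 ht2))
  simp at this

theorem main : ∃ (X : Type) (_ : TopologicalSpace X), T35Space X ∧ Nonempty X ∧
    ¬ OneWins (DenseFamilies X) (DenseFamilies X) ∧
    ¬ TwoWins (DenseFamilies X) (DenseFamilies X) := by
  obtain ⟨W, _, _, _, _, _, -⟩ := exists_W
  obtain ⟨E, h1, h2⟩ := exists_split' (W := W)
  obtain ⟨L, hL⟩ := exists_lad E
  exact ⟨Finset W, top L, t35 hL.self, ⟨∅⟩, not_one hL h2, not_two hL h1⟩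

end Pool.Agent.H745Z.GameA
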