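import Pool.Agent.H745Z.GameDefs
import Pool.Agent.H745Z.Omega1

/-! A Hausdorff space on which the open-point game is undetermined. -/

namespace Pool.Agent.H745Z.GameB

open Set Pool.Agent.H745Z.Game Pool.Agent.H745Z.Om

variable {W : Type} [LinearOrder W]

/-- ladder data -/
structure Lad {ι : Type} (U : ι → Set W) (E : Set W) (L : W → Set W) : Prop where
  self : ∀ ξ, ξ ∈ L ξ
  le : ∀ ξ, ∀ x ∈ L ξ, x ≤ ξ
  fin : ∀ ξ α, α < ξ → (L ξ ∩ Iic α).Finite
  out : ∀ ξ, ξ ∉ E → L ξ = {ξ}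
  cof : ∀ ξ ∈ E, ∀ i, (∀ β < ξ, ∃ γ ∈ U i, β < γ ∧ γ < ξ) →
    ∀ β < ξ, ∃ γ ∈ L ξ ∩ U i, β < γ ∧ γ < ξ

theorem exists_lad [Om1 W] {ι : Type} [Countable ι] (U : ι → Set W) (E : Set W) :
    ∃ L, Lad U E L := by
  classical
  have h1 := fun α : W => exists_ladder U α
  choose N h1 h2 h3 using h1
  refine ⟨fun ξ => if ξ ∈ E then insert ξ (N ξ) else {ξ}, ?_, ?_, ?_, ?_, ?_⟩
  · intro ξ; by_cases h : ξ ∈ E <;> simp [h]
  · intro ξ x hx
    by_cases h : ξ ∈ E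
    · simp only [h, if_true] at hx
      rcases hx with rfl | hx
      · exact le_rfl
      · exact (h1 ξ hx).le
    · simp only [h, if_false] at hx
      exact le_of_eq hx
  · intro ξ α hα
    by_cases h : ξ ∈ E
    · simp only [h, if_true]
      refine ((h2 ξ α hα).insert ξ).subset ?_
      rintro x ⟨hx | hx, hx'⟩
      · exact Or.inl hx
      · exact Or.inr ⟨hx, hx'⟩
    · simp only [h, if_false]
      exact (finite_singleton ξ).subset inter_subset_left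
  · intro ξ h; simp [h]
  · intro ξ h i hl β hβ
    obtain ⟨γ, ⟨hγ, hγ'⟩, hβγ⟩ := h3 ξ i hl β hβ
    refine ⟨γ, ⟨?_, hγ'⟩, hβγ, h1 ξ hγ⟩
    simp only [h, if_true]
    exact Or.inr hγ

/-- points outside the ladders indexed by `F` -/
def Out (L : W → Set W) (F : Finset W) : Set W := {x | ∀ ξ ∈ F, x ∉ L ξ}

/-- the refined topology -/
@[reducible] def top (ρ : TopologicalSpace W) (L : W → Set W) : TopologicalSpace W where
  IsOpen O := ∀ x ∈ O, ∃ V F, ρ.IsOpen V ∧ x ∈ V ∧ V ∩ Out L F ⊆ O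
  isOpen_univ := fun _ _ => ⟨univ, ∅, ρ.isOpen_univ, trivial, subset_univ _⟩
  isOpen_inter := by
    intro U V hU hV t ht
    obtain ⟨A, F, hA, hA', hF⟩ := hU t ht.1
    obtain ⟨B, G, hB, hB', hG⟩ := hV t ht.2
    refine ⟨A ∩ B, F ∪ G, ρ.isOpen_inter _ _ hA hB, ⟨hA', hB'⟩,
      fun u hu => ⟨hF ⟨hu.1.1, ?_⟩, hG ⟨hu.1.2, ?_⟩⟩⟩
    · exact fun ξ hξ => hu.2 ξ (Finset.mem_union_left _ hξ)
    · exact fun ξ hξ => hu.2 ξ (Finset.mem_union_right _ hξ)
  isOpen_sUnion := by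
    intro S hS t ⟨U, hU, ht⟩
    obtain ⟨A, F, hA, hA', hF⟩ := hS U hU t ht
    exact ⟨A, F, hA, hA', fun u hu => ⟨U, hU, hF hu⟩⟩

theorem basic_open (ρ : TopologicalSpace W) (L : W → Set W) {V : Set W} (hV : ρ.IsOpen V)
    (F : Finset W) : (top ρ L).IsOpen (V ∩ Out L F) :=
  fun _ hx => ⟨V, F, hV, hx.1, subset_rfl⟩

theorem t2 (ρ : TopologicalSpace W) (h : @T2Space W ρ) (L : W → Set W) :
    @T2Space W (top ρ L) := by
  refine @T2Space.mk W (top ρ L) (fun x y hxy => ?_)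
  obtain ⟨u, v, hu, hv, hx, hy, huv⟩ := @T2Space.t2 W ρ h x y hxy
  exact ⟨u, v, fun z hz => ⟨u, ∅, hu, hz, inter_subset_left⟩,
    fun z hz => ⟨v, ∅, hv, hz, inter_subset_left⟩, hx, hy, huv⟩

section

variable [Om1 W] {ρ : TopologicalSpace W} {ι : Type} [Countable ι] {U : ι → Set W} {E : Set W}
  {L : W → Set W}

omit [Countable ι] in
theorem basic_nonempty (hL : Lad U E L) {V : Set W} (hV : ¬ V.Countable) (F : Finset W) :
    (V ∩ Out L F).Nonempty := by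
  obtain ⟨x, hx, hx'⟩ := exists_gt_of_not_countable hV (Finset.countable_toSet F)
  exact ⟨x, hx, fun ξ hξ h => absurd (hL.le ξ x h) (not_le.2 (hx' ξ hξ))⟩

theorem not_one (hL : Lad U E L) (hU2 : ∀ i, ¬ (U i).Countable)
    (hU3 : ∀ V, ρ.IsOpen V → V.Nonempty → ∃ i, U i ⊆ V) (hE : ∀ g, ∃ α ∈ E, Cl g α) :
    ¬ OneWins {O | (top ρ L).IsOpen O ∧ O.Nonempty} {D | ¬ @Dense W (top ρ L) D} := by
  rintro ⟨σ, hσ, hwin⟩
  have h1 : ∀ l : List (Set W × W), ∃ i F, U i ∩ Out L F ⊆ σ l := by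
    intro l
    obtain ⟨x, hx⟩ := (hσ l).2
    obtain ⟨V, F, hV, hxV, hF⟩ := (hσ l).1 x hx
    obtain ⟨i, hi⟩ := hU3 V hV ⟨x, hxV⟩
    exact ⟨i, F, (inter_subset_inter_left _ hi).trans hF⟩
  choose I F hF using h1
  have h2 : ∀ i (x : W), ∃ γ ∈ U i, x < γ := by
    intro i x
    obtain ⟨γ, h1, h2⟩ := exists_gt_of_not_countable (hU2 i) (countable_singleton x)
    exact ⟨γ, h1, h2 x rfl⟩
  choose c hc1 hc2 using h2
  let H : List W → List (Set W × W) := fun xs => xs.rec [] (fun x _ l => l ++ [(σ l, x)])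
  obtain ⟨α, hα, h0, -, hcl⟩ := exists_closed (fun x : W => ({x} : Finset W))
    (fun β => (Om1.ctbl β).mono (fun x hx => hx x (Finset.mem_singleton_self x)))
    (fun xs => ↑(F (H xs)) ∪ ⋃ x ∈ {x | x ∈ xs}, range (fun i => c i x))
    (fun xs => (Finset.countable_toSet _).union
      ((List.finite_toSet xs).countable.biUnion (fun _ _ => countable_range _))) hE
  have hcof : ∀ i, ∀ β < α, ∃ γ ∈ U i, β < γ ∧ γ < α := by
    intro i β hβ
    refine ⟨c i β, hc1 i β, hc2 i β, hcl [β] ?_ _ (Or.inr ?_)⟩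
    · intro p hp x hx
      rw [List.mem_singleton] at hp
      rw [Finset.mem_singleton] at hx
      rw [hx, hp]; exact hβ
    · exact mem_biUnion (show β ∈ {x | x ∈ [β]} from List.mem_singleton_self β) ⟨i, rfl⟩
  have h3 : ∀ xs : List W, ∃ y : W, (∀ x ∈ xs, x < α) → y < α ∧ y ∈ σ (H xs) ∧ y ∈ L α := by
    intro xs
    by_cases hxs : ∀ x ∈ xs, x < α
    swap
    · exact ⟨α, fun h => absurd h hxs⟩
    have h4 := hcl xs (fun p hp x hx => by
      rw [Finset.mem_singleton] at hx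
      rw [hx]; exact hxs p hp)
    obtain ⟨β, hβ, hb⟩ := finset_bound h0 (F (H xs))
      (fun x hx => h4 x (Or.inl (Finset.mem_coe.2 hx)))
    obtain ⟨γ, hγ, hβγ, hγα⟩ := hL.cof α hα (I (H xs)) (hcof _) β hβ
    refine ⟨γ, fun _ => ⟨hγα, hF _ ⟨hγ.2, fun ξ hξ h => ?_⟩, hγ.1⟩⟩
    exact absurd ((hL.le ξ γ h).trans (hb ξ hξ)) (not_le.2 hβγ)
  choose S hS using h3
  let ℓ : ℕ → List W := fun n => n.rec [] (fun _ l => S l :: l)
  have hℓ : ∀ n, ∀ x ∈ ℓ n, x < α := by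
    intro n
    induction n with
    | zero => intro p hp; cases hp
    | succ n ih =>
      intro p hp
      rcases List.mem_cons.1 hp with rfl | hp
      · exact (hS _ ih).1
      · exact ih p hp
  have hh : ∀ n, hist (fun n => σ (H (ℓ n))) (fun n => S (ℓ n)) n = H (ℓ n) := by
    intro n
    induction n with
    | zero => rfl
    | succ n ih =>
      rw [hist, ih]
  apply hwin (fun n => σ (H (ℓ n))) (fun n => S (ℓ n)) (fun n => by rw [hh])
    (fun n => (hS _ (hℓ n)).2.1)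
  intro hd
  let := top ρ L
  have hunc := Om1.unc (W := W)
  obtain ⟨t, ht1, n, rfl⟩ := hd.inter_open_nonempty (univ ∩ Out L {α})
    (basic_open ρ L ρ.isOpen_univ _) (basic_nonempty hL not_countable_univ _)
  exact ht1.2 α (Finset.mem_singleton_self α) (hS _ (hℓ n)).2.2

theorem not_two (hL : Lad U E L) (hU1 : ∀ i, ρ.IsOpen (U i)) (hU2 : ∀ i, ¬ (U i).Countable)
    (hU3 : ∀ V, ρ.IsOpen V → V.Nonempty → ∃ i, U i ⊆ V) (hE : ∀ g, ∃ α ∉ E, Cl g α) :
    ¬ TwoWins {O | (top ρ L).IsOpen O ∧ O.Nonempty} {D | ¬ @Dense W (top ρ L) D} := by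
  rintro ⟨τ, hτ, hwin⟩
  let O : ι × Finset W → Set W := fun p => U p.1 ∩ Out L p.2
  have hO : ∀ p, O p ∈ {O | (top ρ L).IsOpen O ∧ O.Nonempty} := fun p =>
    ⟨basic_open ρ L (hU1 _) _, basic_nonempty hL (hU2 _) _⟩
  let H : List (ι × Finset W) → List (Set W × W) :=
    fun ps => ps.rec [] (fun p _ l => l ++ [(O p, τ l (O p))])
  let G : List (ι × Finset W) → Set W := fun ps =>
    match ps with
    | [] => ∅
    | p :: ps => {τ (H ps) (O p)}
  have hpc : ∀ β : W, {p : ι × Finset W | ∀ x ∈ p.2, x ≤ β}.Countable := fun β =>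
    ((countable_univ (α := ι)).prod (finset_countable β)).mono (fun p hp => mk_mem_prod (mem_univ p.1) hp)
  obtain ⟨α, hα, h0, -, hcl⟩ := exists_closed (fun p : ι × Finset W => p.2) hpc G (by
      intro l
      cases l with
      | nil => exact countable_empty
      | cons p ps => exact countable_singleton _) (E := Eᶜ) hE
  have hc : {p : ι × Finset W | ∀ x ∈ p.2, x < α}.Countable :=
    (hpc α).mono (fun p hp x hx => (hp x hx).le)
  obtain ⟨i0, -⟩ := hU3 univ ρ.isOpen_univ ⟨α, trivial⟩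
  obtain ⟨e, he⟩ := hc.exists_eq_range ⟨(i0, ∅), by simp⟩
  have he1 : ∀ n, ∀ x ∈ (e n).2, x < α := fun n => by
    have : e n ∈ range e := ⟨n, rfl⟩
    rw [← he] at this
    exact this
  let ℓ : ℕ → List (ι × Finset W) := fun n => n.rec [] (fun n l => e n :: l)
  have hℓ : ∀ n, ∀ p ∈ ℓ n, ∀ x ∈ p.2, x < α := by
    intro n
    induction n with
    | zero => intro p hp; cases hp
    | succ n ih =>
      intro p hp
      rcases List.mem_cons.1 hp with rfl | hp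
      · exact he1 n
      · exact ih p hp
  have hh : ∀ n, hist (fun n => O (e n)) (fun n => τ (H (ℓ n)) (O (e n))) n = H (ℓ n) := by
    intro n
    induction n with
    | zero => rfl
    | succ n ih =>
      rw [hist, ih]
  apply hwin (fun n => O (e n)) (fun n => τ (H (ℓ n)) (O (e n))) (fun n => hO _)
    (fun n => by rw [hh])
  let := top ρ L
  rw [dense_iff_inter_open]
  rintro A hA ⟨s, hs⟩
  obtain ⟨V, F, hV, hsV, hF⟩ := hA s hs
  obtain ⟨i, hi⟩ := hU3 V hV ⟨s, hsV⟩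
  have hfin : (⋃ ξ ∈ F.filter (α < ·), L ξ ∩ Iic α).Finite :=
    (Finset.finite_toSet _).biUnion (fun ξ hξ => hL.fin ξ α (Finset.mem_filter.1 hξ).2)
  let F' : Finset W := (F ∪ hfin.toFinset).filter (· < α)
  have hp : (i, F') ∈ range e := by
    rw [← he]
    intro x hx
    exact (Finset.mem_filter.1 hx).2
  obtain ⟨n, hn⟩ := hp
  have hq : τ (H (ℓ n)) (O (e n)) < α := hcl (ℓ (n + 1)) (hℓ (n + 1)) _ rfl
  have hq1 := hτ (H (ℓ n)) _ (hO (e n))
  refine ⟨_, hF ?_, n, rfl⟩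
  set x := τ (H (ℓ n)) (O (e n)) with hx
  rw [hn] at hq1
  refine ⟨hi hq1.1, fun ξ hξ hxξ => ?_⟩
  rcases lt_trichotomy ξ α with h | h | h
  · exact hq1.2 ξ (Finset.mem_filter.2 ⟨Finset.mem_union_left _ hξ, h⟩) hxξ
  · rw [h, hL.out α hα] at hxξ
    exact absurd hxξ hq.ne
  · refine hq1.2 x (Finset.mem_filter.2 ⟨Finset.mem_union_right _ ?_, hq⟩) (hL.self x)
    rw [Finite.mem_toFinset]
    exact mem_biUnion (Finset.mem_coe.2 (Finset.mem_filter.2 ⟨hξ, h⟩)) ⟨hxξ, hq.le⟩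

end

theorem main : ∃ (X : Type) (_ : TopologicalSpace X), T2Space X ∧ Nonempty X ∧
    ¬ OneWins {O : Set X | IsOpen O ∧ O.Nonempty} {D : Set X | ¬ Dense D} ∧
    ¬ TwoWins {O : Set X | IsOpen O ∧ O.Nonempty} {D : Set X | ¬ Dense D} := by
  obtain ⟨W, _, ρ, hW, h2, _, hunc⟩ := exists_W
  obtain ⟨E, hE1, hE2⟩ := exists_split' (W := W)
  have := (TopologicalSpace.countable_countableBasis W).to_subtype
  let U : TopologicalSpace.countableBasis W → Set W := Subtype.val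
  have hU1 : ∀ i, IsOpen (U i) := fun i => TopologicalSpace.isOpen_of_mem_countableBasis i.2
  have hU2 : ∀ i, ¬ (U i).Countable := fun i =>
    hunc _ (hU1 i) (TopologicalSpace.nonempty_of_mem_countableBasis i.2)
  have hU3 : ∀ V, IsOpen V → V.Nonempty → ∃ i, U i ⊆ V := by
    rintro V hV ⟨x, hx⟩
    obtain ⟨u, hu1, -, hu3⟩ :=
      (TopologicalSpace.isBasis_countableBasis W).exists_subset_of_mem_open hx hV
    exact ⟨⟨u, hu1⟩, hu3⟩
  obtain ⟨L, hL⟩ := exists_lad U E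
  have := hW.unc
  exact ⟨W, top ρ L, t2 ρ h2 L, inferInstance, not_one hL hU2 hU3 hE1,
    not_two hL hU1 hU2 hU3 hE2⟩

end Pool.Agent.H745Z.GameB
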