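import Mathlib

/-! Selection games of length omega: definitions. -/

namespace Pool.Agent.H745Z.Game

universe u

/-- The list of the first `n` innings `(A 0, b 0), ..., (A (n-1), b (n-1))` of a play. -/
def hist {M : Type u} (A : ℕ → Set M) (b : ℕ → M) : ℕ → List (Set M × M)
  | 0 => []
  | n + 1 => hist A b n ++ [(A n, b n)]

/-- ONE has a winning strategy in the game `G₁(𝒜, ℬ)`: in inning `n` ONE picks `A n ∈ 𝒜`, TWO picks
`b n ∈ A n`, and TWO wins iff `{b n : n ∈ ℕ} ∈ ℬ`. -/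
def OneWins {M : Type u} (𝒜 ℬ : Set (Set M)) : Prop :=
  ∃ σ : List (Set M × M) → Set M, (∀ l, σ l ∈ 𝒜) ∧
    ∀ (A : ℕ → Set M) (b : ℕ → M), (∀ n, A n = σ (hist A b n)) → (∀ n, b n ∈ A n) →
      Set.range b ∉ ℬ

/-- TWO has a winning strategy in the game `G₁(𝒜, ℬ)`. -/
def TwoWins {M : Type u} (𝒜 ℬ : Set (Set M)) : Prop :=
  ∃ τ : List (Set M × M) → Set M → M, (∀ l, ∀ S ∈ 𝒜, τ l S ∈ S) ∧
    ∀ (A : ℕ → Set M) (b : ℕ → M), (∀ n, A n ∈ 𝒜) → (∀ n, b n = τ (hist A b n) (A n)) →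
      Set.range b ∈ ℬ

/-- The collection of all families of open subsets of `X` whose union is dense. -/
def DenseFamilies (X : Type u) [TopologicalSpace X] : Set (Set (Set X)) :=
  {𝒰 | (∀ U ∈ 𝒰, IsOpen U) ∧ Dense (⋃₀ 𝒰)}

end Pool.Agent.H745Z.Game
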