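import Pool.Agent.H745Z.MinkDefs

namespace Pool.Agent.H745Z.Mink

open MeasureTheory Metric Filter Set Complex
open scoped ENNReal

/-- coordinates with respect to `u`, `v` -/
noncomputable def Φ (u v : ℂ) : ℂ →ₗ[ℝ] ℂ where
  toFun z := (z.re : ℂ) * u + (z.im : ℂ) * v
  map_add' z w := by simp; ring
  map_smul' c z := by simp; ring

theorem Φ_apply (u v z : ℂ) : Φ u v z = (z.re : ℂ) * u + (z.im : ℂ) * v := rfl

theorem Φ_det (u v : ℂ) : LinearMap.det (Φ u v) = u.re * v.im - v.re * u.im := by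
  rw [← LinearMap.det_toMatrix basisOneI, Matrix.det_fin_two]
  simp [LinearMap.toMatrix_apply, Φ_apply]

/-- hypotheses on `u`, `v` -/
structure UV (u v : ℂ) : Prop where
  hu : u.re ^ 2 + u.im ^ 2 = 1
  hv : v.re ^ 2 + v.im ^ 2 = 1
  huv : u.re * v.re + u.im * v.im = 1 / 2

theorem uv_of {u v : ℂ} (hu : ‖u‖ = 1) (hv : ‖v‖ = 1)
    (h : InnerProductGeometry.angle u v = Real.pi / 3) : UV u v := by
  refine ⟨?_, ?_, ?_⟩
  · have := Complex.sq_norm u
    rw [hu, normSq_apply] at this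
    nlinarith
  · have := Complex.sq_norm v
    rw [hv, normSq_apply] at this
    nlinarith
  · have := InnerProductGeometry.cos_angle_mul_norm_mul_norm u v
    rw [h, Real.cos_pi_div_three, hu, hv, Complex.inner] at this
    simp at this
    linarith

variable {u v : ℂ}

theorem UV.norm_sq (h : UV u v) (z : ℂ) :
    ‖Φ u v z‖ ^ 2 = z.re ^ 2 + z.re * z.im + z.im ^ 2 := by
  rw [Complex.sq_norm, normSq_apply, Φ_apply]
  simp
  have := h.hu
  have := h.hv
  have := h.huv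
  linear_combination z.re ^ 2 * h.hu + z.im ^ 2 * h.hv + 2 * z.re * z.im * h.huv

theorem UV.det_ne (h : UV u v) : LinearMap.det (Φ u v) ≠ 0 := by
  rw [Φ_det]
  intro h0
  have : (u.re * v.im - v.re * u.im) ^ 2 = 3 / 4 := by
    have h1 : (u.re * v.im - v.re * u.im) ^ 2 = (u.re ^ 2 + u.im ^ 2) * (v.re ^ 2 + v.im ^ 2) -
      (u.re * v.re + u.im * v.im) ^ 2 := by ring
    rw [h1, h.hu, h.hv, h.huv]; norm_num
  rw [h0] at this
  norm_num at this

theorem UV.norm_le (h : UV u v) (z : ℂ) (h1 : |z.re| ≤ 1) (h2 : |z.im| ≤ 1) : ‖Φ u v z‖ ≤ 2 := by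
  have h3 := h.norm_sq z
  rw [abs_le] at h1 h2
  have : ‖Φ u v z‖ ^ 2 ≤ 2 ^ 2 := by nlinarith
  nlinarith [norm_nonneg (Φ u v z)]

/-- the area of the fundamental cell -/
noncomputable def cA (u v : ℂ) : ℝ := |LinearMap.det (Φ u v)|

theorem UV.cA_pos (h : UV u v) : 0 < cA u v := abs_pos.2 h.det_ne

theorem UV.vol (h : UV u v) (T : Set ℂ) :
    volume T = ENNReal.ofReal (cA u v) * volume (Φ u v ⁻¹' T) := by
  have hs : Function.Surjective (Φ u v) := ((Φ u v).equivOfDetNeZero h.det_ne).surjective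
  conv_lhs => rw [← image_preimage_eq T hs]
  exact Measure.addHaar_image_linearMap _ _ _

theorem vol_box (a b c d : ℝ) :
    volume (Icc a b ×ℂ Icc c d) = ENNReal.ofReal (b - a) * ENNReal.ofReal (d - c) := by
  have := volume_preserving_equiv_real_prod.measure_preimage
    (s := Icc a b ×ˢ Icc c d) (measurableSet_Icc.prod measurableSet_Icc).nullMeasurableSet
  rw [Measure.volume_eq_prod, Measure.prod_prod, Real.volume_Icc, Real.volume_Icc] at this
  exact this

theorem vol_cell0 : volume (Ico (0 : ℝ) 1 ×ℂ Ico (0 : ℝ) 1) = 1 := by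
  have := volume_preserving_equiv_real_prod.measure_preimage
    (s := Ico (0 : ℝ) 1 ×ˢ Ico (0 : ℝ) 1) (measurableSet_Ico.prod measurableSet_Ico).nullMeasurableSet
  rw [Measure.volume_eq_prod, Measure.prod_prod, Real.volume_Ico] at this
  simp only [sub_zero, ENNReal.ofReal_one, mul_one] at this
  exact this

/-- lattice point in coordinates -/
def pt (p : ℤ × ℤ) : ℂ := ⟨p.1, p.2⟩

/-- translate of a set by a lattice point -/
def tr (S : Set ℂ) (p : ℤ × ℤ) : Set ℂ := (fun z => z - pt p) ⁻¹' S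

theorem vol_sub (S : Set ℂ) (w : ℂ) : volume ((fun z => z - w) ⁻¹' S) = volume S := by
  simp only [sub_eq_add_neg]
  exact measure_preimage_add_right _ _ _

theorem vol_tr (S : Set ℂ) (p : ℤ × ℤ) : volume (tr S p) = volume S := vol_sub _ _

/-- unit cell -/
def cell0 : Set ℂ := Ico (0 : ℝ) 1 ×ℂ Ico (0 : ℝ) 1

theorem meas_cell0 : MeasurableSet cell0 :=
  (measurableSet_Ico.preimage measurable_re).inter (measurableSet_Ico.preimage measurable_im)

theorem tr_disj {S : Set ℂ} (hS : S ⊆ cell0) : Pairwise (Function.onFun Disjoint (tr S)) := by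
  intro p q hpq
  rw [Function.onFun, Set.disjoint_left]
  intro z h1 h2
  obtain ⟨⟨a1, a2⟩, a3, a4⟩ := hS h1
  obtain ⟨⟨b1, b2⟩, b3, b4⟩ := hS h2
  simp only [sub_re, sub_im, pt] at a1 a2 a3 a4 b1 b2 b3 b4
  apply hpq
  have c1 : ((p.1 - q.1 : ℤ) : ℝ) < 1 := by push_cast; linarith
  have c2 : (-1 : ℝ) < ((p.1 - q.1 : ℤ) : ℝ) := by push_cast; linarith
  have c3 : ((p.2 - q.2 : ℤ) : ℝ) < 1 := by push_cast; linarith
  have c4 : (-1 : ℝ) < ((p.2 - q.2 : ℤ) : ℝ) := by push_cast; linarith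
  have d1 : p.1 - q.1 < 1 := by exact_mod_cast c1
  have d2 : -1 < p.1 - q.1 := by exact_mod_cast c2
  have d3 : p.2 - q.2 < 1 := by exact_mod_cast c3
  have d4 : -1 < p.2 - q.2 := by exact_mod_cast c4
  ext <;> omega

/-- lattice points in a disk -/
def SS (u v : ℂ) (R : ℝ) : Set (ℤ × ℤ) := {p | ‖Φ u v (pt p)‖ ≤ R}

/-- their number -/
noncomputable def NN (u v : ℂ) (R : ℝ) : ℝ≥0∞ := ∑' _ : SS u v R, (1 : ℝ≥0∞)

theorem vol_union {S : Set ℂ} (hS : S ⊆ cell0) (hm : MeasurableSet S) (R : ℝ) :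
    volume (⋃ p : SS u v R, tr S p) = NN u v R * volume S := by
  rw [measure_iUnion]
  · simp only [vol_tr]
    rw [NN, ← ENNReal.tsum_mul_right]
    simp
  · intro p q hpq
    exact tr_disj hS (fun h => hpq (Subtype.ext h))
  · intro p
    exact hm.preimage (measurable_id.sub_const _)

theorem UV.up (h : UV u v) (R : ℝ) :
    ENNReal.ofReal (cA u v) * NN u v R ≤ volume (closedBall (0 : ℂ) (R + 2)) := by
  rw [h.vol (closedBall _ _)]
  have h1 := vol_union (u := u) (v := v) (S := cell0) subset_rfl meas_cell0 R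
  rw [cell0, vol_cell0, mul_one] at h1
  rw [← h1]
  gcongr
  intro z hz
  obtain ⟨p, hp⟩ := mem_iUnion.1 hz
  obtain ⟨⟨a1, a2⟩, a3, a4⟩ := hp
  have h2 := h.norm_le (z - pt p) (by rw [abs_le]; constructor <;> linarith)
    (by rw [abs_le]; constructor <;> linarith)
  have h3 : Φ u v z = Φ u v (pt p) + Φ u v (z - pt p) := by rw [← map_add]; simp
  rw [mem_preimage, mem_closedBall_zero_iff, h3]
  exact (norm_add_le _ _).trans (add_le_add p.2 h2)

theorem UV.low (h : UV u v) (R : ℝ) :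
    volume (closedBall (0 : ℂ) (R - 2)) ≤ ENNReal.ofReal (cA u v) * NN u v R := by
  rw [h.vol (closedBall _ _)]
  have h1 := vol_union (u := u) (v := v) (S := cell0) subset_rfl meas_cell0 R
  rw [cell0, vol_cell0, mul_one] at h1
  rw [← h1]
  gcongr
  intro z hz
  rw [mem_preimage, mem_closedBall_zero_iff] at hz
  have a1 := Int.floor_le z.re
  have a2 := Int.lt_floor_add_one z.re
  have a3 := Int.floor_le z.im
  have a4 := Int.lt_floor_add_one z.im
  have h2 := h.norm_le (z - pt (⌊z.re⌋, ⌊z.im⌋))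
    (by rw [abs_le]; simp only [sub_re, pt]; constructor <;> linarith)
    (by rw [abs_le]; simp only [sub_im, pt]; constructor <;> linarith)
  have h3 : Φ u v (pt (⌊z.re⌋, ⌊z.im⌋)) = Φ u v z - Φ u v (z - pt (⌊z.re⌋, ⌊z.im⌋)) := by
    rw [← map_sub]; simp
  refine mem_iUnion.2 ⟨⟨(⌊z.re⌋, ⌊z.im⌋), ?_⟩, ?_⟩
  · show ‖_‖ ≤ R
    rw [h3]
    exact (norm_sub_le _ _).trans (by linarith)
  · refine ⟨⟨?_, ?_⟩, ?_, ?_⟩ <;> simp only [sub_re, sub_im, pt] <;> linarith

theorem vol_cb (R : ℝ) (hR : 0 ≤ R) :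
    volume (closedBall (0 : ℂ) R) = ENNReal.ofReal (Real.pi * R ^ 2) := by
  rw [Complex.volume_closedBall, mul_comm, ENNReal.ofReal_mul Real.pi_pos.le,
    ENNReal.ofReal_pow hR]
  congr 1
  rw [← NNReal.coe_real_pi, ENNReal.ofReal_coe_nnreal]

theorem vol_b (z : ℂ) (R : ℝ) (hR : 0 ≤ R) :
    volume (ball z R) = ENNReal.ofReal (Real.pi * R ^ 2) := by
  rw [Complex.volume_ball, mul_comm, ENNReal.ofReal_mul Real.pi_pos.le,
    ENNReal.ofReal_pow hR]
  congr 1
  rw [← NNReal.coe_real_pi, ENNReal.ofReal_coe_nnreal]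

theorem UV.NN_ne_top (h : UV u v) (R : ℝ) : NN u v R ≠ ⊤ := by
  intro h0
  have h1 := h.up R
  rw [h0, ENNReal.mul_top (by simpa using h.cA_pos)] at h1
  exact absurd (top_le_iff.1 h1) measure_closedBall_lt_top.ne

/-- real number of lattice points -/
noncomputable def nn (u v : ℂ) (R : ℝ) : ℝ := (NN u v R).toReal

theorem UV.NN_eq (h : UV u v) (R : ℝ) : NN u v R = ENNReal.ofReal (nn u v R) :=
  (ENNReal.ofReal_toReal (h.NN_ne_top R)).symm

theorem nn_nonneg (R : ℝ) : 0 ≤ nn u v R := ENNReal.toReal_nonneg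

theorem UV.up' (h : UV u v) {R : ℝ} (hR : 0 ≤ R) :
    cA u v * nn u v R ≤ Real.pi * (R + 2) ^ 2 := by
  have h1 := h.up R
  rw [h.NN_eq, ← ENNReal.ofReal_mul h.cA_pos.le, vol_cb _ (by linarith)] at h1
  exact (ENNReal.ofReal_le_ofReal_iff (by positivity)).1 h1

theorem UV.low' (h : UV u v) {R : ℝ} (hR : 2 ≤ R) :
    Real.pi * (R - 2) ^ 2 ≤ cA u v * nn u v R := by
  have h1 := h.low R
  rw [h.NN_eq, ← ENNReal.ofReal_mul h.cA_pos.le, vol_cb _ (by linarith)] at h1
  exact (ENNReal.ofReal_le_ofReal_iff (mul_nonneg h.cA_pos.le (nn_nonneg R))).1 h1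

end Pool.Agent.H745Z.Mink
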