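import Pool.Agent.H745Z.MinkA

namespace Pool.Agent.H745Z.Mink

open MeasureTheory Metric Filter Set Complex
open scoped ENNReal

variable {u v : ℂ}

/-- lower hole -/
def T1 : Set ℂ := {z | z.re < 1 / 3 + 307 / 100000 ∧ z.im < 1 / 3 + 307 / 100000 ∧
  2 / 3 - 307 / 100000 < z.re + z.im}

/-- upper hole -/
def T2 : Set ℂ := {z | 2 / 3 - 307 / 100000 < z.re ∧ 2 / 3 - 307 / 100000 < z.im ∧
  z.re + z.im < 4 / 3 + 307 / 100000}

theorem T1_open : IsOpen T1 :=
  (isOpen_lt continuous_re continuous_const).inter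
    ((isOpen_lt continuous_im continuous_const).inter
      (isOpen_lt continuous_const (continuous_re.add continuous_im)))

theorem T2_open : IsOpen T2 :=
  (isOpen_lt continuous_const continuous_re).inter
    ((isOpen_lt continuous_const continuous_im).inter
      (isOpen_lt (continuous_re.add continuous_im) continuous_const))

theorem vol_T : volume (T1 ∪ T2) ≤ ENNReal.ofReal ((921 / 100000) ^ 2) := by
  let w : ℂ := ⟨-(1 / 3 + 307 / 100000), -(1 / 3 + 307 / 100000)⟩
  have h1 : volume T2 = volume ((fun z => z - w) ⁻¹' T2) := (vol_sub _ _).symm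
  have hm : MeasurableSet ((fun z => z - w) ⁻¹' T2) :=
    T2_open.measurableSet.preimage (measurable_id.sub_const _)
  have hd : Disjoint T1 ((fun z => z - w) ⁻¹' T2) := by
    rw [Set.disjoint_left]
    rintro z ⟨-, -, a3⟩ ⟨-, -, b3⟩
    simp only [sub_re, sub_im, w] at b3
    linarith
  calc volume (T1 ∪ T2) ≤ volume T1 + volume T2 := measure_union_le _ _
    _ = volume (T1 ∪ (fun z => z - w) ⁻¹' T2) := by rw [measure_union hd hm, ← h1]
    _ ≤ volume (Icc (1 / 3 - 2 * (307 / 100000) : ℝ) (1 / 3 + 307 / 100000) ×ℂ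
        Icc (1 / 3 - 2 * (307 / 100000) : ℝ) (1 / 3 + 307 / 100000)) := by
      apply measure_mono
      rintro z (⟨a1, a2, a3⟩ | ⟨a1, a2, a3⟩)
      · exact ⟨⟨by linarith, by linarith⟩, by linarith, by linarith⟩
      · simp only [sub_re, sub_im, w] at a1 a2 a3
        exact ⟨⟨by linarith, by linarith⟩, by linarith, by linarith⟩
    _ = _ := by
      rw [vol_box, ← ENNReal.ofReal_mul (by norm_num)]
      congr 1
      norm_num

/-- covered part of the cell -/
def good0 : Set ℂ := cell0 \ (T1 ∪ T2)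

theorem meas_good0 : MeasurableSet good0 :=
  meas_cell0.diff (T1_open.union T2_open).measurableSet

theorem vol_good0 : ENNReal.ofReal (1 - (921 / 100000) ^ 2) ≤ volume good0 := by
  have h1 : volume cell0 - volume (T1 ∪ T2) ≤ volume good0 := le_measure_sdiff
  rw [cell0, vol_cell0] at h1
  refine le_trans ?_ h1
  rw [ENNReal.ofReal_sub _ (by positivity), ENNReal.ofReal_one]
  exact tsub_le_tsub_left vol_T _

theorem tri1 (x y z : ℝ) (hy : y ≤ x) (hz : z ≤ x) (hy0 : 0 ≤ y) (hz0 : 0 ≤ z)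
    (hs : x + y + z = 1) (hx : 1 / 3 + 307 / 100000 ≤ x) :
    y ^ 2 + y * z + z ^ 2 < (50 / 87) ^ 2 := by
  by_cases h : 1 / 2 ≤ x
  · have h1 : y + z ≤ 1 / 2 := by linarith
    nlinarith [mul_nonneg hy0 hz0]
  · push Not at h
    have h1 : 0 ≤ (x - y) * (x - z) := mul_nonneg (by linarith) (by linarith)
    have h2 : y ^ 2 + y * z + z ^ 2 ≤ 1 - 3 * x + 3 * x ^ 2 := by
      have : z = 1 - x - y := by linarith
      subst this
      nlinarith
    have h3 : 0 ≤ (x - (1 / 3 + 307 / 100000)) * (1 / 2 - x) := mul_nonneg (by linarith) (by linarith)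
    nlinarith

theorem tri (x y z : ℝ) (hx0 : 0 ≤ x) (hy0 : 0 ≤ y) (hz0 : 0 ≤ z) (hs : x + y + z = 1)
    (h : ¬ (x < 1 / 3 + 307 / 100000 ∧ y < 1 / 3 + 307 / 100000 ∧ z < 1 / 3 + 307 / 100000)) :
    y ^ 2 + y * z + z ^ 2 < (50 / 87) ^ 2 ∨ x ^ 2 + x * z + z ^ 2 < (50 / 87) ^ 2 ∨
      x ^ 2 + x * y + y ^ 2 < (50 / 87) ^ 2 := by
  have hm : 1 / 3 + 307 / 100000 ≤ x ∨ 1 / 3 + 307 / 100000 ≤ y ∨ 1 / 3 + 307 / 100000 ≤ z := by
    by_contra hc
    push Not at hc
    exact h hc
  rcases le_total x y with h1 | h1 <;> rcases le_total y z with h2 | h2 <;>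
    rcases le_total x z with h3 | h3
  · exact Or.inr (Or.inr (tri1 z x y h3 h2 hx0 hy0 (by linarith) (by rcases hm with h | h | h <;> linarith)))
  · exact Or.inr (Or.inr (tri1 z x y (by linarith) h2 hx0 hy0 (by linarith) (by rcases hm with h | h | h <;> linarith)))
  · exact Or.inr (Or.inl (tri1 y x z h1 h2 hx0 hz0 (by linarith) (by rcases hm with h | h | h <;> linarith)))
  · exact Or.inr (Or.inl (tri1 y x z h1 h2 hx0 hz0 (by linarith) (by rcases hm with h | h | h <;> linarith)))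
  · exact Or.inr (Or.inr (tri1 z x y h3 h2 hx0 hy0 (by linarith) (by rcases hm with h | h | h <;> linarith)))
  · exact Or.inl (tri1 x y z h1 h3 hy0 hz0 (by linarith) (by rcases hm with h | h | h <;> linarith))
  · exact Or.inl (tri1 x y z h1 (by linarith) hy0 hz0 (by linarith) (by rcases hm with h | h | h <;> linarith))
  · exact Or.inl (tri1 x y z h1 h3 hy0 hz0 (by linarith) (by rcases hm with h | h | h <;> linarith))

theorem cover {z : ℂ} (hz : z ∈ good0) : ∃ i j : ℤ, 0 ≤ i ∧ i ≤ 1 ∧ 0 ≤ j ∧ j ≤ 1 ∧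
    (z.re - i) ^ 2 + (z.re - i) * (z.im - j) + (z.im - j) ^ 2 < (50 / 87) ^ 2 := by
  obtain ⟨⟨⟨a1, a2⟩, a3, a4⟩, hT⟩ := hz
  rw [mem_union, not_or] at hT
  by_cases h : z.re + z.im ≤ 1
  · have := tri (1 - z.re - z.im) z.re z.im (by linarith) a1 a3 (by ring) (by
      rintro ⟨b1, b2, b3⟩
      exact hT.1 ⟨b2, b3, by linarith⟩)
    rcases this with h1 | h1 | h1
    · exact ⟨0, 0, le_rfl, zero_le_one, le_rfl, zero_le_one, by push_cast; nlinarith⟩
    · exact ⟨1, 0, zero_le_one, le_rfl, le_rfl, zero_le_one, by push_cast; nlinarith⟩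
    · exact ⟨0, 1, le_rfl, zero_le_one, zero_le_one, le_rfl, by push_cast; nlinarith⟩
  · push Not at h
    have := tri (z.re + z.im - 1) (1 - z.re) (1 - z.im) (by linarith) (by linarith) (by linarith)
      (by ring) (by
      rintro ⟨b1, b2, b3⟩
      exact hT.2 ⟨by linarith, by linarith, by linarith⟩)
    rcases this with h1 | h1 | h1
    · exact ⟨1, 1, zero_le_one, le_rfl, zero_le_one, le_rfl, by push_cast; nlinarith⟩
    · exact ⟨0, 1, le_rfl, zero_le_one, zero_le_one, le_rfl, by push_cast; nlinarith⟩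
    · exact ⟨1, 0, zero_le_one, le_rfl, le_rfl, zero_le_one, by push_cast; nlinarith⟩

theorem hex_eq (u v : ℂ) : hex (37 / 50) u v = range (fun p : ℤ × ℤ => (Φ u v (pt p), (50 / 87 : ℝ))) := by
  ext B
  simp only [hex, mem_ofPred_eq, mem_range]
  have : (1 : ℝ) / (1 + 37 / 50) = 50 / 87 := by norm_num
  rw [this]
  constructor
  · rintro ⟨m, n, rfl⟩
    exact ⟨(m, n), by simp [Φ_apply, pt]⟩
  · rintro ⟨p, rfl⟩
    exact ⟨p.1, p.2, by simp [Φ_apply, pt]⟩

theorem UV.V_low (h : UV u v) (R : ℝ) :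
    ENNReal.ofReal (cA u v) * (NN u v (R - 3) * ENNReal.ofReal (1 - (921 / 100000) ^ 2)) ≤
      volume (⋃ B ∈ inside (hex (37 / 50) u v) R, ball B.1 B.2) := by
  rw [h.vol (⋃ B ∈ inside (hex (37 / 50) u v) R, ball B.1 B.2)]
  gcongr
  refine le_trans ?_ (measure_mono (s := ⋃ p : SS u v (R - 3), tr good0 p) ?_)
  · rw [vol_union (S := good0) sdiff_subset meas_good0]
    gcongr
    exact vol_good0
  · intro z hz
    obtain ⟨p, hp⟩ := mem_iUnion.1 hz
    obtain ⟨i, j, i0, i1, j0, j1, hij⟩ := cover hp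
    have i0' : (0 : ℝ) ≤ i := by exact_mod_cast i0
    have i1' : (i : ℝ) ≤ 1 := by exact_mod_cast i1
    have j0' : (0 : ℝ) ≤ j := by exact_mod_cast j0
    have j1' : (j : ℝ) ≤ 1 := by exact_mod_cast j1
    let q : ℤ × ℤ := (p.1.1 + i, p.1.2 + j)
    have hq : pt q = pt p + pt (i, j) := by
      apply Complex.ext <;> simp [pt, q]
    have hq2 : ‖Φ u v (pt q)‖ ≤ R - 1 := by
      rw [hq, map_add]
      have h1 := h.norm_le (pt (i, j)) (by rw [abs_le]; simp only [pt]; constructor <;> linarith)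
        (by rw [abs_le]; simp only [pt]; constructor <;> linarith)
      have h2 : ‖Φ u v (pt p)‖ ≤ R - 3 := p.2
      exact (norm_add_le _ _).trans (by linarith)
    rw [mem_preimage]
    refine mem_iUnion₂.2 ⟨(Φ u v (pt q), (50 / 87 : ℝ)), ⟨?_, ?_⟩, ?_⟩
    · rw [hex_eq]; exact ⟨q, rfl⟩
    · intro y hy
      rw [mem_ball, dist_eq_norm] at hy
      rw [mem_closedBall_zero_iff]
      have : y = (y - Φ u v (pt q)) + Φ u v (pt q) := by ring
      rw [this]
      refine (norm_add_le _ _).trans ?_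
      simp only at hy
      linarith
    · rw [mem_ball, dist_eq_norm, ← map_sub]
      have h1 := h.norm_sq (z - pt q)
      have e1 : (z - pt q).re = (z - pt p).re - i := by simp [pt, q]; ring
      have e2 : (z - pt q).im = (z - pt p).im - j := by simp [pt, q]; ring
      rw [e1, e2] at h1
      have h2 : ‖Φ u v (z - pt q)‖ ^ 2 < (50 / 87) ^ 2 := by rw [h1]; exact hij
      exact lt_of_pow_lt_pow_left₀ 2 (by norm_num) h2

theorem UV.inj (h : UV u v) : Function.Injective (Φ u v) :=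
  ((Φ u v).equivOfDetNeZero h.det_ne).injective

theorem A_up (R : ℝ) :
    (∑' B : inside (hex (37 / 50) u v) R, volume (ball B.1.1 B.1.2)) ≤
      NN u v R * ENNReal.ofReal (Real.pi * (50 / 87) ^ 2) := by
  have h1 : ∀ B : inside (hex (37 / 50) u v) R, ∃ p : SS u v R,
      B.1 = (Φ u v (pt p), (50 / 87 : ℝ)) := by
    rintro ⟨B, hB1, hB2⟩
    rw [hex_eq] at hB1
    obtain ⟨p, rfl⟩ := hB1
    refine ⟨⟨p, ?_⟩, rfl⟩
    have := hB2 (mem_ball_self (by norm_num))
    rwa [mem_closedBall_zero_iff] at this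
  choose f hf using h1
  have hinj : Function.Injective f := by
    intro B B' hB
    apply Subtype.ext
    rw [hf B, hf B', hB]
  have h2 := ENNReal.tsum_comp_le_tsum_of_injective hinj
    (fun _ => ENNReal.ofReal (Real.pi * (50 / 87) ^ 2))
  refine le_trans (le_of_eq ?_) (h2.trans (le_of_eq ?_))
  · congr 1
    funext B
    rw [hf B, vol_b _ _ (by norm_num)]
  · rw [NN, ← ENNReal.tsum_mul_right]
    simp

theorem UV.densityU_le (h : UV u v) :
    densityU (hex (37 / 50) u v) ≤ ENNReal.ofReal (Real.pi * (3303229 / 10000000) / cA u v) := by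
  apply limsup_le_of_le (by isBoundedDefault)
  filter_upwards [eventually_ge_atTop (100000000 : ℝ)] with R hR
  have hc := h.cA_pos
  have h1 := h.up' (R := R) (by linarith)
  have h2 := h.low' (R := R - 3) (by linarith)
  have h3 := h.V_low R
  have h4 := A_up (u := u) (v := v) R
  have hn := nn_nonneg (u := u) (v := v) R
  have hn' := nn_nonneg (u := u) (v := v) (R - 3)
  rw [h.NN_eq, ← ENNReal.ofReal_mul hn', ← ENNReal.ofReal_mul hc.le] at h3
  rw [h.NN_eq, ← ENNReal.ofReal_mul hn] at h4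
  refine (ENNReal.div_le_div h4 h3).trans ?_
  have hpi := Real.pi_pos
  have hpos : 0 < cA u v * nn u v (R - 3) := lt_of_lt_of_le (by
    have : 0 < R - 3 - 2 := by linarith
    positivity) h2
  have hpos' : 0 < cA u v * (nn u v (R - 3) * (1 - (921 / 100000) ^ 2)) := by
    rw [← mul_assoc]
    exact mul_pos hpos (by norm_num)
  rw [← ENNReal.ofReal_div_of_pos hpos']
  apply ENNReal.ofReal_le_ofReal
  rw [div_le_div_iff₀ hpos' hc]
  have h5 : (R + 2) ^ 2 * (50 / 87) ^ 2 ≤
      (3303229 / 10000000) * ((R - 3 - 2) ^ 2 * (1 - (921 / 100000) ^ 2)) := by nlinarith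
  calc nn u v R * (Real.pi * (50 / 87) ^ 2) * cA u v
      = (cA u v * nn u v R) * (Real.pi * (50 / 87) ^ 2) := by ring
    _ ≤ (Real.pi * (R + 2) ^ 2) * (Real.pi * (50 / 87) ^ 2) := by gcongr
    _ = Real.pi ^ 2 * ((R + 2) ^ 2 * (50 / 87) ^ 2) := by ring
    _ ≤ Real.pi ^ 2 * ((3303229 / 10000000) * ((R - 3 - 2) ^ 2 * (1 - (921 / 100000) ^ 2))) := by
      gcongr
    _ = Real.pi * (3303229 / 10000000) * ((Real.pi * (R - 3 - 2) ^ 2) * (1 - (921 / 100000) ^ 2)) := by
      ring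
    _ ≤ Real.pi * (3303229 / 10000000) * ((cA u v * nn u v (R - 3)) * (1 - (921 / 100000) ^ 2)) := by
      gcongr
    _ = _ := by ring

end Pool.Agent.H745Z.Mink
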