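import Pool.Agent.H745Z.MinkB

namespace Pool.Agent.H745Z.Mink

open MeasureTheory Metric Filter Set Complex
open scoped ENNReal

variable {u v : ℂ}

/-- first coordinates of the nine disks of a cell -/
def ca : Fin 9 → ℚ := ![0, 1 / 3, 1 / 3 + 24 / 10000, 1 / 3 - 48 / 10000, 1 / 3 + 24 / 10000,
  2 / 3, 2 / 3 - 24 / 10000, 2 / 3 + 48 / 10000, 2 / 3 - 24 / 10000]

/-- second coordinates -/
def cb : Fin 9 → ℚ := ![0, 1 / 3, 1 / 3 + 24 / 10000, 1 / 3 + 24 / 10000, 1 / 3 - 48 / 10000,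
  2 / 3, 2 / 3 - 24 / 10000, 2 / 3 - 24 / 10000, 2 / 3 + 48 / 10000]

/-- radii -/
def cr : Fin 9 → ℚ := ![50 / 87, 356 / 100000, 76 / 100000, 76 / 100000, 76 / 100000,
  356 / 100000, 76 / 100000, 76 / 100000, 76 / 100000]

theorem c_bounds : ∀ i : Fin 9, 0 ≤ ca i ∧ ca i ≤ 7 / 10 ∧ 0 ≤ cb i ∧ cb i ≤ 7 / 10 ∧
    76 / 100000 ≤ cr i ∧ cr i ≤ 50 / 87 := by decide +kernel

theorem c_sep : ∀ i j : Fin 9, ∀ x y : Fin 3, (x.val ≠ 1 ∨ y.val ≠ 1 ∨ i ≠ j) →
    (cr i + 37 / 50 * cr j) ^ 2 ≤ (((x.val : ℚ) - 1) + ca i - ca j) ^ 2 +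
      (((x.val : ℚ) - 1) + ca i - ca j) * (((y.val : ℚ) - 1) + cb i - cb j) +
      (((y.val : ℚ) - 1) + cb i - cb j) ^ 2 := by decide +kernel

theorem c_sum : (3303232 / 10000000 : ℚ) ≤ ∑ i : Fin 9, cr i ^ 2 := by decide +kernel

theorem c_sep' (i j : Fin 9) (x y : ℤ) (h : x ≠ 0 ∨ y ≠ 0 ∨ i ≠ j) :
    (cr i + 37 / 50 * cr j) ^ 2 ≤ ((x : ℚ) + ca i - ca j) ^ 2 +
      ((x : ℚ) + ca i - ca j) * ((y : ℚ) + cb i - cb j) + ((y : ℚ) + cb i - cb j) ^ 2 := by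
  obtain ⟨a1, a2, a3, a4, a5, a6⟩ := c_bounds i
  obtain ⟨b1, b2, b3, b4, b5, b6⟩ := c_bounds j
  have h1 : (cr i + 37 / 50 * cr j) ^ 2 ≤ 1 := by
    have : cr i + 37 / 50 * cr j ≤ 1 := by linarith
    have : 0 ≤ cr i + 37 / 50 * cr j := by linarith
    nlinarith
  by_cases hx : 2 ≤ x
  · have : (2 : ℚ) ≤ x := by exact_mod_cast hx
    have h2 : 13 / 10 ≤ (x : ℚ) + ca i - ca j := by linarith
    nlinarith [sq_nonneg (((x : ℚ) + ca i - ca j) / 2 + ((y : ℚ) + cb i - cb j))]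
  by_cases hx' : x ≤ -2
  · have : (x : ℚ) ≤ -2 := by exact_mod_cast hx'
    have h2 : (x : ℚ) + ca i - ca j ≤ -13 / 10 := by linarith
    nlinarith [sq_nonneg (((x : ℚ) + ca i - ca j) / 2 + ((y : ℚ) + cb i - cb j))]
  by_cases hy : 2 ≤ y
  · have : (2 : ℚ) ≤ y := by exact_mod_cast hy
    have h2 : 13 / 10 ≤ (y : ℚ) + cb i - cb j := by linarith
    nlinarith [sq_nonneg (((x : ℚ) + ca i - ca j) + ((y : ℚ) + cb i - cb j) / 2)]
  by_cases hy' : y ≤ -2
  · have : (y : ℚ) ≤ -2 := by exact_mod_cast hy'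
    have h2 : (y : ℚ) + cb i - cb j ≤ -13 / 10 := by linarith
    nlinarith [sq_nonneg (((x : ℚ) + ca i - ca j) + ((y : ℚ) + cb i - cb j) / 2)]
  have hx3 : (x + 1).toNat < 3 := by omega
  have hy3 : (y + 1).toNat < 3 := by omega
  have := c_sep i j ⟨(x + 1).toNat, hx3⟩ ⟨(y + 1).toNat, hy3⟩ (by
    rcases h with h | h | h
    · left; simp only; omega
    · right; left; simp only; omega
    · right; right; exact h)
  have e1 : (((x + 1).toNat : ℕ) : ℚ) - 1 = x := by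
    have : (((x + 1).toNat : ℕ) : ℤ) = x + 1 := Int.toNat_of_nonneg (by omega)
    have h3 : (((x + 1).toNat : ℕ) : ℚ) = ((x + 1 : ℤ) : ℚ) := by exact_mod_cast this
    rw [h3]; push_cast; ring
  have e2 : (((y + 1).toNat : ℕ) : ℚ) - 1 = y := by
    have : (((y + 1).toNat : ℕ) : ℤ) = y + 1 := Int.toNat_of_nonneg (by omega)
    have h3 : (((y + 1).toNat : ℕ) : ℚ) = ((y + 1 : ℤ) : ℚ) := by exact_mod_cast this
    rw [h3]; push_cast; ring
  simp only [e1, e2] at this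
  exact this

/-- the disks -/
noncomputable def gd (u v : ℂ) (k : (ℤ × ℤ) × Fin 9) : ℂ × ℝ :=
  (Φ u v (pt k.1 + ⟨(ca k.2 : ℝ), (cb k.2 : ℝ)⟩), (cr k.2 : ℝ))

theorem cr_pos (i : Fin 9) : (0 : ℝ) < cr i := by
  have := (c_bounds i).2.2.2.2.1
  have h : (0 : ℚ) < cr i := by linarith
  exact_mod_cast h

theorem le_of_sq_le_sq_aux {a b : ℝ} (h : a ^ 2 ≤ b ^ 2) (hb : 0 ≤ b) : a ≤ b :=
  le_of_pow_le_pow_left₀ two_ne_zero hb h

theorem UV.sep (h : UV u v) {k l : (ℤ × ℤ) × Fin 9} (hkl : k ≠ l) :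
    (gd u v k).2 + 37 / 50 * (gd u v l).2 ≤ dist (gd u v k).1 (gd u v l).1 := by
  have h1 := c_sep' k.2 l.2 (k.1.1 - l.1.1) (k.1.2 - l.1.2) (by
    by_contra hc
    push Not at hc
    apply hkl
    obtain ⟨a, b, c⟩ := hc
    ext
    · omega
    · omega
    · rw [c])
  have h2 : (((cr k.2 : ℝ) + 37 / 50 * cr l.2)) ^ 2 ≤
      (((k.1.1 : ℝ) - l.1.1) + ca k.2 - ca l.2) ^ 2 +
      (((k.1.1 : ℝ) - l.1.1) + ca k.2 - ca l.2) * (((k.1.2 : ℝ) - l.1.2) + cb k.2 - cb l.2) +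
      (((k.1.2 : ℝ) - l.1.2) + cb k.2 - cb l.2) ^ 2 := by
    have := (Rat.cast_le (K := ℝ)).2 h1
    push_cast at this
    exact this
  simp only [gd]
  rw [dist_eq_norm, ← map_sub]
  have h3 := h.norm_sq ((pt k.1 + ⟨(ca k.2 : ℝ), (cb k.2 : ℝ)⟩) - (pt l.1 + ⟨(ca l.2 : ℝ), (cb l.2 : ℝ)⟩))
  refine le_of_sq_le_sq_aux ?_ (norm_nonneg _)
  rw [h3]
  refine h2.trans (le_of_eq ?_)
  simp only [pt, sub_re, sub_im, add_re, add_im]
  ring

theorem UV.gd_inj (h : UV u v) : Function.Injective (gd u v) := by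
  intro k l hkl
  by_contra hne
  have := h.sep hne
  rw [hkl, dist_self] at this
  have h1 : 0 < (gd u v l).2 := cr_pos _
  linarith

theorem UV.isArr (h : UV u v) : IsArr (37 / 50) (range (gd u v)) := by
  refine ⟨countable_range _, ?_, ?_⟩
  · rintro _ ⟨k, rfl⟩
    exact cr_pos _
  · rintro _ ⟨k, rfl⟩ _ ⟨l, rfl⟩ hne
    have hkl : k ≠ l := fun h => hne (by rw [h])
    refine max_le (h.sep hkl) ?_
    rw [dist_comm]
    exact h.sep hkl.symm

theorem posHom : PosHom (range (gd u v)) := by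
  refine ⟨76 / 100000, 50 / 87, by norm_num, ?_⟩
  rintro _ ⟨k, rfl⟩
  obtain ⟨-, -, -, -, a5, a6⟩ := c_bounds k.2
  have b5 := (Rat.cast_le (K := ℝ)).2 a5
  have b6 := (Rat.cast_le (K := ℝ)).2 a6
  push_cast at b5 b6
  exact ⟨b5, b6⟩

theorem UV.S_low (h : UV u v) (R : ℝ) :
    NN u v (R - 2) * ENNReal.ofReal (Real.pi * (3303232 / 10000000)) ≤
      ∑' B : {B : ℂ × ℝ // B ∈ range (gd u v) ∧ B.1 ∈ closedBall (0 : ℂ) R},
        volume (ball B.1.1 B.1.2) := by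
  let f : SS u v (R - 2) × Fin 9 → {B : ℂ × ℝ // B ∈ range (gd u v) ∧ B.1 ∈ closedBall (0 : ℂ) R} :=
    fun k => ⟨gd u v (k.1.1, k.2), ⟨_, rfl⟩, by
      rw [mem_closedBall_zero_iff]
      simp only [gd]
      rw [map_add]
      obtain ⟨a1, a2, a3, a4, -, -⟩ := c_bounds k.2
      have b1 := (Rat.cast_le (K := ℝ)).2 a1
      have b2 := (Rat.cast_le (K := ℝ)).2 a2
      have b3 := (Rat.cast_le (K := ℝ)).2 a3
      have b4 := (Rat.cast_le (K := ℝ)).2 a4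
      push_cast at b1 b2 b3 b4
      have h1 := h.norm_le ⟨(ca k.2 : ℝ), (cb k.2 : ℝ)⟩
        (by rw [abs_le]; simp only; constructor <;> linarith)
        (by rw [abs_le]; simp only; constructor <;> linarith)
      have h2 : ‖Φ u v (pt k.1.1)‖ ≤ R - 2 := k.1.2
      exact (norm_add_le _ _).trans (by linarith)⟩
  have hinj : Function.Injective f := by
    intro k l hkl
    have := h.gd_inj (congrArg Subtype.val hkl)
    simp only [Prod.mk.injEq] at this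
    exact Prod.ext (Subtype.ext this.1) this.2
  refine le_trans ?_ (ENNReal.tsum_comp_le_tsum_of_injective hinj
    (fun B => volume (ball B.1.1 B.1.2)))
  rw [ENNReal.tsum_prod', NN, ← ENNReal.tsum_mul_right]
  apply ENNReal.tsum_le_tsum
  intro p
  rw [one_mul, tsum_fintype]
  have h1 : ∀ i : Fin 9, volume (ball (f (p, i)).1.1 (f (p, i)).1.2) =
      ENNReal.ofReal (Real.pi * (cr i : ℝ) ^ 2) := fun i => vol_b _ _ (cr_pos i).le
  rw [Finset.sum_congr rfl (fun i _ => h1 i), ← ENNReal.ofReal_sum_of_nonneg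
    (fun i _ => by positivity), ← Finset.mul_sum]
  apply ENNReal.ofReal_le_ofReal
  have := (Rat.cast_le (K := ℝ)).2 c_sum
  push_cast at this
  exact mul_le_mul_of_nonneg_left this Real.pi_pos.le

theorem UV.le_density (h : UV u v) :
    ENNReal.ofReal (Real.pi * (3303231 / 10000000) / cA u v) ≤ density (range (gd u v)) := by
  apply le_limsup_of_frequently_le _ (by isBoundedDefault)
  apply Eventually.frequently
  filter_upwards [eventually_ge_atTop (100000000 : ℝ)] with R hR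
  have hc := h.cA_pos
  have h2 := h.low' (R := R - 2) (by linarith)
  have h3 := h.S_low R
  have hn' := nn_nonneg (u := u) (v := v) (R - 2)
  rw [h.NN_eq, ← ENNReal.ofReal_mul hn'] at h3
  refine le_trans ?_ (ENNReal.div_le_div_right h3 _)
  have hpi := Real.pi_pos
  have hpos : 0 < Real.pi * R ^ 2 := by
    have : 0 < R := by linarith
    positivity
  rw [← ENNReal.ofReal_div_of_pos hpos]
  apply ENNReal.ofReal_le_ofReal
  rw [div_le_div_iff₀ hc hpos]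
  have h5 : (3303231 / 10000000) * R ^ 2 ≤ (R - 2 - 2) ^ 2 * (3303232 / 10000000) := by nlinarith
  calc Real.pi * (3303231 / 10000000) * (Real.pi * R ^ 2)
      = Real.pi ^ 2 * ((3303231 / 10000000) * R ^ 2) := by ring
    _ ≤ Real.pi ^ 2 * ((R - 2 - 2) ^ 2 * (3303232 / 10000000)) := by gcongr
    _ = (Real.pi * (R - 2 - 2) ^ 2) * (Real.pi * (3303232 / 10000000)) := by ring
    _ ≤ (cA u v * nn u v (R - 2)) * (Real.pi * (3303232 / 10000000)) := by gcongr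
    _ = _ := by ring

theorem main (u v : ℂ) (hu : ‖u‖ = 1) (hv : ‖v‖ = 1)
    (huv : InnerProductGeometry.angle u v = Real.pi / 3) :
    ∃ μ : ℝ, Real.sqrt 3 - 1 < μ ∧ μ < 1 ∧ ∃ F : Set (ℂ × ℝ), IsArr μ F ∧ PosHom F ∧
      densityU (hex μ u v) < density F := by
  have h := uv_of hu hv huv
  refine ⟨37 / 50, ?_, by norm_num, range (gd u v), h.isArr, posHom, ?_⟩
  · have : Real.sqrt 3 < 87 / 50 := by
      rw [Real.sqrt_lt' (by norm_num)]; norm_num
    linarith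
  · refine lt_of_le_of_lt h.densityU_le (lt_of_lt_of_le ?_ h.le_density)
    have hc := h.cA_pos
    have hpi := Real.pi_pos
    rw [ENNReal.ofReal_lt_ofReal_iff (by positivity)]
    gcongr
    norm_num

end Pool.Agent.H745Z.Mink
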