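import Mathlib

/-! Generalized Minkowski arrangements of disks in the plane: definitions. A disk is given by the
pair (center, radius); the plane is `ℂ` with its Euclidean norm and Lebesgue measure. -/

namespace Pool.Agent.H745Z.Mink

open MeasureTheory Metric Filter
open scoped ENNReal

/-- `μ`-arrangement: a countable family of open disks with positive radii such that
`|x - y| ≥ max (ρ + μ σ) (σ + μ ρ)` for any two different members `(x, ρ)`, `(y, σ)`. -/
def IsArr (μ : ℝ) (F : Set (ℂ × ℝ)) : Prop :=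
  F.Countable ∧ (∀ B ∈ F, 0 < B.2) ∧
    ∀ B ∈ F, ∀ B' ∈ F, B ≠ B' → max (B.2 + μ * B'.2) (B'.2 + μ * B.2) ≤ dist B.1 B'.1

/-- positive homogeneity: the radii are bounded away from `0` and bounded above -/
def PosHom (F : Set (ℂ × ℝ)) : Prop :=
  ∃ a b : ℝ, 0 < a ∧ ∀ B ∈ F, a ≤ B.2 ∧ B.2 ≤ b

/-- upper density: `limsup` of (total area of the members with center in the closed disk of
radius `R`) divided by `π R ^ 2` -/
noncomputable def density (F : Set (ℂ × ℝ)) : ℝ≥0∞ :=
  limsup (fun R : ℝ => (∑' B : {B : ℂ × ℝ // B ∈ F ∧ B.1 ∈ closedBall (0 : ℂ) R},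
    volume (ball B.1.1 B.1.2)) / ENNReal.ofReal (Real.pi * R ^ 2)) atTop

/-- the members contained in the closed disk of radius `R` about the origin -/
def inside (F : Set (ℂ × ℝ)) (R : ℝ) : Set (ℂ × ℝ) :=
  {B | B ∈ F ∧ ball B.1 B.2 ⊆ closedBall (0 : ℂ) R}

/-- density relative to the union -/
noncomputable def densityU (F : Set (ℂ × ℝ)) : ℝ≥0∞ :=
  limsup (fun R : ℝ => (∑' B : inside F R, volume (ball B.1.1 B.1.2)) /
    volume (⋃ B ∈ inside F R, ball B.1 B.2)) atTop

/-- the hexagonal arrangement: disks of radius `1 / (1 + μ)` centered at the points of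
`ℤ u + ℤ v` -/
def hex (μ : ℝ) (u v : ℂ) : Set (ℂ × ℝ) :=
  {B | ∃ m n : ℤ, B = ((m : ℂ) * u + (n : ℂ) * v, 1 / (1 + μ))}

end Pool.Agent.H745Z.Mink
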