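import Pool.Agent.Results.MP_8269f7_co.SublinearMaxDegree

/-! Zero-freeness of the chromatic polynomial of series-parallel graphs from an invariant class of
effective edge weights. -/

namespace Pool.Agent.H745Z.SP

open Polynomial SimpleGraph
open Pool.Agent.Results.MP_8269f7_co.SublinearMaxDegree

/-- a class of edge activities `y = 1 + v` closed under parallel and series composition -/
structure Cls (q : ℂ) (C : ℂ → Prop) : Prop where
  q0 : q ≠ 0
  zero : C 0
  mul : ∀ y z, C y → C z → C (y * z)
  one : ∀ v, C (1 + v) → q + v ≠ 0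
  ser : ∀ v w, C (1 + v) → C (1 + w) → q + v + w ≠ 0 ∧ C (1 + v * w / (q + v + w))

theorem cls_of (q : ℂ) (s : ℝ) (hs0 : 0 < s) (hs1 : s ≤ 1 / 3) (h1 : s ^ 2 < ‖q - 1‖)
    (h2 : ‖q - 1‖ ≤ s - s ^ 2 - s ^ 3) :
    Cls q (fun y => ‖y‖ ≤ s ∧ ‖y + (q - 1)‖ ≤ s * ‖y - 1‖ ∧ y + (q - 1) ≠ 0) := by
  set e := ‖q - 1‖ with he
  have hs2 : s ^ 2 ≤ s := by nlinarith
  have hs3 : 0 ≤ s ^ 3 := by positivity
  have hs4 : 0 ≤ s ^ 2 := by positivity
  have K : ∀ z : ℂ, ‖z‖ ≤ s ^ 2 → ‖z + (q - 1)‖ ≤ s * ‖z - 1‖ ∧ z + (q - 1) ≠ 0 := by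
    intro z hz
    constructor
    · have a1 : ‖z + (q - 1)‖ ≤ ‖z‖ + e := norm_add_le _ _
      have a2 : 1 - ‖z‖ ≤ ‖z - 1‖ := by
        have := norm_sub_norm_le (1 : ℂ) z
        rw [norm_one, norm_sub_rev] at this
        exact this
      have a3 : s * (1 - s ^ 2) ≤ s * ‖z - 1‖ := by
        apply mul_le_mul_of_nonneg_left _ hs0.le
        linarith
      nlinarith
    · intro h
      have : z = -(q - 1) := by linear_combination h
      rw [this, norm_neg] at hz
      linarith
  refine ⟨?_, ?_, ?_, ?_, ?_⟩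
  · intro h
    rw [h] at he
    simp at he
    nlinarith
  · have := K 0 (by simpa using hs4)
    exact ⟨by simpa using hs0.le, this.1, this.2⟩
  · rintro y z ⟨hy, -, -⟩ ⟨hz, -, -⟩
    have hyz : ‖y * z‖ ≤ s ^ 2 := by
      rw [norm_mul, sq]
      exact mul_le_mul hy hz (norm_nonneg _) hs0.le
    exact ⟨hyz.trans hs2, (K _ hyz).1, (K _ hyz).2⟩
  · rintro v ⟨-, -, h⟩ h'
    apply h
    linear_combination h'
  · rintro v w ⟨hv1, hv2, hv3⟩ ⟨hw1, hw2, hw3⟩
    have hD : q + v + w ≠ 0 := by
      intro h
      have h' : (1 : ℂ) = (1 + v) + (1 + w) + (q - 1) := by linear_combination -h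
      have h'' : ‖(1 : ℂ)‖ ≤ ‖1 + v‖ + ‖1 + w‖ + e := by
        conv_lhs => rw [h']
        exact norm_add₃_le
      rw [norm_one] at h''
      nlinarith
    refine ⟨hD, ?_⟩
    have e1 : 1 + v * w / (q + v + w) + (q - 1) =
        (1 + v + (q - 1)) * (1 + w + (q - 1)) / (q + v + w) := by
      field_simp
      ring
    have e2 : 1 + v * w / (q + v + w) - 1 = (1 + v - 1) * (1 + w - 1) / (q + v + w) := by
      ring
    have hDp : 0 < ‖q + v + w‖ := norm_pos_iff.2 hD
    have b1 : ‖1 + v * w / (q + v + w) + (q - 1)‖ ≤ s ^ 2 * ‖1 + v * w / (q + v + w) - 1‖ := by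
      rw [e1, e2, norm_div, norm_div, norm_mul, norm_mul, ← mul_div_assoc]
      apply div_le_div_of_nonneg_right _ hDp.le
      calc ‖1 + v + (q - 1)‖ * ‖1 + w + (q - 1)‖ ≤ (s * ‖1 + v - 1‖) * (s * ‖1 + w - 1‖) :=
            mul_le_mul hv2 hw2 (norm_nonneg _) (by positivity)
        _ = _ := by ring
    set y := 1 + v * w / (q + v + w) with hy
    refine ⟨?_, ?_, ?_⟩
    · have c1 : ‖y‖ ≤ ‖y + (q - 1)‖ + e := by
        have := norm_sub_le (y + (q - 1)) (q - 1)
        simpa using this
      have c2 : ‖y - 1‖ ≤ ‖y‖ + 1 := by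
        have := norm_sub_le y 1
        simpa using this
      have c3 : s ^ 2 * ‖y - 1‖ ≤ s ^ 2 * (‖y‖ + 1) := mul_le_mul_of_nonneg_left c2 hs4
      have c4 : ‖y‖ * (1 - s ^ 2) ≤ s * (1 - s ^ 2) := by nlinarith
      have c5 : 0 < 1 - s ^ 2 := by nlinarith
      exact le_of_mul_le_mul_right c4 c5
    · exact b1.trans (mul_le_mul_of_nonneg_right hs2 (norm_nonneg _))
    · rw [e1]
      exact div_ne_zero (mul_ne_zero hv3 hw3) hD

theorem exists_cls (q : ℂ) (h0 : 0 < ‖q - 1‖) (h1 : ‖q - 1‖ ≤ 5 / 27) :
    ∃ C : ℂ → Prop, Cls q C := by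
  by_cases h : 1 / 9 < ‖q - 1‖
  · exact ⟨_, cls_of q (1 / 3) (by norm_num) le_rfl (by linarith) (by linarith)⟩
  · push Not at h
    refine ⟨_, cls_of q (2 * ‖q - 1‖) (by linarith) (by linarith) (by nlinarith) ?_⟩
    have : ‖q - 1‖ ^ 2 ≤ ‖q - 1‖ / 9 := by nlinarith
    have : ‖q - 1‖ ^ 3 ≤ ‖q - 1‖ / 81 := by nlinarith
    nlinarith

theorem main_aux' {V : Type} [Fintype V] [DecidableEq V] (q : ℂ) (C : ℂ → Prop) (hc : Cls q C) :
    ∀ (m : ℕ) (H : SimpleGraph V) (A B : Sym2 V → ℂ[X]),
    (active H).ncard ≤ m → ¬ HasK4Minor H →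
    (∀ u w, ¬ H.Adj u w → B s(u, w) = 0) →
    (∀ e, (A e).eval q ≠ 0) →
    (∀ u w, H.Adj u w → C (1 + (B s(u, w)).eval q / (A s(u, w)).eval q)) →
    ∃ (j : ℕ) (P : ℂ[X]), (∀ n : ℕ, P.eval (n : ℂ) = (n : ℂ) ^ j * Z A B n) ∧ P.eval q ≠ 0 := by
  have hq0 : q ≠ 0 := hc.q0
  intro m
  induction m with
  | zero =>
    intro H A B hm _ hB hA _
    have h0 : active H = ∅ := by
      rw [← Set.ncard_eq_zero (Set.toFinite _)]; omega
    have hBz : ∀ e, B e = 0 := by
      intro e
      induction e with
      | _ u w =>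
        apply hB
        intro h
        have : u ∈ active H := ⟨w, h⟩
        rw [h0] at this
        exact this
    refine ⟨0, X ^ Fintype.card V * ∏ e, A e, fun n => ?_, ?_⟩
    · rw [Z_base hBz, pow_zero, one_mul]
    · rw [eval_mul, eval_pow, eval_X, eval_prod]
      exact mul_ne_zero (pow_ne_zero _ hq0) (Finset.prod_ne_zero_iff.2 fun e _ => hA e)
  | succ m ih =>
    intro H A B hm hK hB hA hBd
    by_cases hact : (active H).ncard ≤ m
    · exact ih H A B hact hK hB hA hBd
    have hne : (active H).Nonempty := by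
      by_contra h
      rw [Set.not_nonempty_iff_eq_empty] at h
      rw [h, Set.ncard_empty] at hact
      omega
    obtain ⟨a, b, hab⟩ := hne
    obtain ⟨x, ⟨u, hxu⟩, p, p', hpp⟩ := exists_small H hK a b hab
    have hKu : ¬ HasK4Minor (contract H x u) := fun h => hK (contract_minor H x u hxu h)
    have hcard : (active (contract H x u)).ncard ≤ m := by
      have := active_contract_ncard H x u hxu
      omega
    by_cases hdeg : ∃ w, H.Adj x w ∧ w ≠ u
    · obtain ⟨w, hxw, hwu⟩ := hdeg
      have hN : ∀ v, H.Adj x v → v = u ∨ v = w := by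
        intro v hv
        rcases hpp u hxu with h1 | h1 <;> rcases hpp w hxw with h2 | h2 <;>
          rcases hpp v hv with h3 | h3
        · exact absurd (h2.trans h1.symm) hwu
        · exact absurd (h2.trans h1.symm) hwu
        · left; rw [h1, h3]
        · right; rw [h2, h3]
        · right; rw [h2, h3]
        · left; rw [h1, h3]
        · exact absurd (h2.trans h1.symm) hwu
        · exact absurd (h2.trans h1.symm) hwu
      have nxu : x ≠ u := hxu.ne
      have nxw : x ≠ w := hxw.ne
      have nuw : u ≠ w := hwu.symm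
      have hH' : ∀ p r, (contract H x u).Adj p r ↔ p ≠ r ∧ p ≠ x ∧ r ≠ x ∧
          (H.Adj p r ∨ (p = u ∧ r = w) ∨ (r = u ∧ p = w)) := by
        intro p r
        constructor
        · rintro ⟨h1, h2, h3, h4⟩
          refine ⟨h1, h2, h3, ?_⟩
          rcases h4 with h | ⟨h, h'⟩ | ⟨h, h'⟩
          · exact Or.inl h
          · rcases hN r h' with h'' | h''
            · exact absurd (h.trans h''.symm) h1
            · exact Or.inr (Or.inl ⟨h, h''⟩)
          · rcases hN p h' with h'' | h''
            · exact absurd (h''.trans h.symm) h1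
            · exact Or.inr (Or.inr ⟨h, h''⟩)
        · rintro ⟨h1, h2, h3, h4⟩
          refine ⟨h1, h2, h3, ?_⟩
          rcases h4 with h | ⟨h, h'⟩ | ⟨h, h'⟩
          · exact Or.inl h
          · exact Or.inr (Or.inl ⟨h, by rw [h']; exact hxw⟩)
          · exact Or.inr (Or.inr ⟨h, by rw [h']; exact hxw⟩)
      have hBx : ∀ v, v ≠ u → v ≠ w → B s(x, v) = 0 := by
        intro v h1 h2
        apply hB
        intro h
        rcases hN v h with h' | h'
        · exact h1 h'
        · exact h2 h'
      set a1 := (A s(x, u)).eval q with ha1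
      set b1 := (B s(x, u)).eval q with hb1
      set a2 := (A s(x, w)).eval q with ha2
      set b2 := (B s(x, w)).eval q with hb2
      set a3 := (A s(u, w)).eval q with ha3
      set b3 := (B s(u, w)).eval q with hb3
      have a1n : a1 ≠ 0 := hA _
      have a2n : a2 ≠ 0 := hA _
      have a3n : a3 ≠ 0 := hA _
      have hv1 : C (1 + b1 / a1) := hBd x u hxu
      have hv2 : C (1 + b2 / a2) := hBd x w hxw
      obtain ⟨hden, hser⟩ := hc.ser _ _ hv1 hv2
      have hA' : (q * a1 * a2 + a1 * b2 + b1 * a2) = a1 * a2 * (q + b1 / a1 + b2 / a2) := by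
        field_simp; ring
      have hA'n : q * a1 * a2 + a1 * b2 + b1 * a2 ≠ 0 := by
        rw [hA']
        exact mul_ne_zero (mul_ne_zero a1n a2n) hden
      have g1 : s(u, w) ≠ s(x, u) := by
        intro h
        rw [Sym2.eq_iff] at h
        rcases h with ⟨h, -⟩ | ⟨-, h⟩
        · exact nxu h.symm
        · exact nxw h.symm
      have g2 : s(u, w) ≠ s(x, w) := by
        intro h
        rw [Sym2.eq_iff] at h
        rcases h with ⟨h, -⟩ | ⟨h, -⟩
        · exact nxu h.symm
        · exact nuw h
      have evA : (A2 A B X x u w s(u, w)).eval q = a3 * (q * a1 * a2 + a1 * b2 + b1 * a2) := by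
        simp only [A2, g1, g2, if_false, if_true, eval_mul, eval_add, eval_X]
        rfl
      have evB : (B2 A B X x u w s(u, w)).eval q = a3 * (b1 * b2) +
          b3 * (q * a1 * a2 + a1 * b2 + b1 * a2) + b3 * (b1 * b2) := by
        simp only [B2, g1, g2, if_false, if_true, eval_mul, eval_add, eval_X]
        rfl
      have hcomb : 1 + (a3 * (b1 * b2) + b3 * (q * a1 * a2 + a1 * b2 + b1 * a2) + b3 * (b1 * b2)) /
          (a3 * (q * a1 * a2 + a1 * b2 + b1 * a2)) =
          (1 + b3 / a3) * (1 + b1 / a1 * (b2 / a2) / (q + b1 / a1 + b2 / a2)) := by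
        have e1 : b1 / a1 * (b2 / a2) / (q + b1 / a1 + b2 / a2) =
            b1 * b2 / (q * a1 * a2 + a1 * b2 + b1 * a2) := by
          rw [hA', div_eq_div_iff hden (mul_ne_zero (mul_ne_zero a1n a2n) hden)]
          field_simp
        rw [e1]
        exact comb_aux a3n hA'n
      have hnew : C (1 + (B2 A B X x u w s(u, w)).eval q / (A2 A B X x u w s(u, w)).eval q) := by
        rw [evA, evB, hcomb]
        by_cases h : H.Adj u w
        · exact hc.mul _ _ (hBd u w h) hser
        · have : b3 = 0 := by rw [hb3, hB u w h, eval_zero]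
          rw [this, zero_div, add_zero, one_mul]
          exact hser
      suffices hsuf : ∃ (j : ℕ) (P : ℂ[X]), (∀ n : ℕ, P.eval (n : ℂ) =
          (n : ℂ) ^ j * Z (A2 A B X x u w) (B2 A B X x u w) n) ∧ P.eval q ≠ 0 by
        obtain ⟨j, P, hP1, hP2⟩ := hsuf
        refine ⟨j + 1, P, fun n => ?_, hP2⟩
        rw [hP1, Z_two x u w nxu nxw nuw hBx, pow_succ]
        ring
      refine ih (contract H x u) (A2 A B X x u w) (B2 A B X x u w) hcard hKu ?_ ?_ ?_
      · intro p r hpr
        by_cases h1 : s(p, r) = s(x, u)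
        · simp [B2, h1]
        by_cases h2 : s(p, r) = s(x, w)
        · simp only [B2, h2]; split_ifs <;> rfl
        by_cases h3 : s(p, r) = s(u, w)
        · exfalso
          apply hpr
          rw [hH']
          rw [Sym2.eq_iff] at h3
          rcases h3 with ⟨h, h'⟩ | ⟨h, h'⟩
          · rw [h, h']
            exact ⟨nuw, nxu.symm, nxw.symm, Or.inr (Or.inl ⟨rfl, rfl⟩)⟩
          · rw [h, h']
            exact ⟨nuw.symm, nxw.symm, nxu.symm, Or.inr (Or.inr ⟨rfl, rfl⟩)⟩
        · simp only [B2, h1, h2, h3, if_false]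
          apply hB
          intro h
          by_cases hpx : p = x
          · rw [hpx] at h h1 h2
            rcases hN r h with h' | h'
            · exact h1 (by rw [h'])
            · exact h2 (by rw [h'])
          · by_cases hrx : r = x
            · rw [hrx] at h h1 h2
              rcases hN p h.symm with h' | h'
              · exact h1 (by rw [h', Sym2.eq_swap])
              · exact h2 (by rw [h', Sym2.eq_swap])
            · exact hpr ((hH' p r).2 ⟨h.ne, hpx, hrx, Or.inl h⟩)
      · intro e
        by_cases h1 : e = s(x, u)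
        · simp [A2, h1]
        by_cases h2 : e = s(x, w)
        · simp only [A2, h2]; split_ifs <;> simp
        by_cases h3 : e = s(u, w)
        · rw [h3, evA]
          exact mul_ne_zero a3n hA'n
        · simp only [A2, h1, h2, h3, if_false]
          exact hA e
      · intro p r hpr
        rw [hH'] at hpr
        obtain ⟨g1, g2, g3, g4⟩ := hpr
        by_cases c1 : p = u ∧ r = w
        · obtain ⟨rfl, rfl⟩ := c1
          exact hnew
        · by_cases c2 : p = w ∧ r = u
          · obtain ⟨rfl, rfl⟩ := c2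
            rw [Sym2.eq_swap]
            exact hnew
          · have hadj : H.Adj p r := by
              rcases g4 with h | h | h
              · exact h
              · exact absurd h c1
              · exact absurd ⟨h.2, h.1⟩ c2
            have f1 : s(p, r) ≠ s(x, u) := by
              intro h
              rw [Sym2.eq_iff] at h
              rcases h with ⟨h, -⟩ | ⟨-, h⟩
              · exact g2 h
              · exact g3 h
            have f2 : s(p, r) ≠ s(x, w) := by
              intro h
              rw [Sym2.eq_iff] at h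
              rcases h with ⟨h, -⟩ | ⟨-, h⟩
              · exact g2 h
              · exact g3 h
            have f3 : s(p, r) ≠ s(u, w) := by
              intro h
              rw [Sym2.eq_iff] at h
              rcases h with h | h
              · exact c1 h
              · exact c2 h
            simp only [A2, B2, f1, f2, f3, if_false]
            exact hBd p r hadj
    · push Not at hdeg
      have hN : ∀ v, H.Adj x v → v = u := hdeg
      have nxu : x ≠ u := hxu.ne
      have hH' : ∀ p r, (contract H x u).Adj p r ↔ p ≠ x ∧ r ≠ x ∧ H.Adj p r := by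
        intro p r
        constructor
        · rintro ⟨h1, h2, h3, h4⟩
          refine ⟨h2, h3, ?_⟩
          rcases h4 with h | ⟨h, h'⟩ | ⟨h, h'⟩
          · exact h
          · exact absurd (h.trans (hN r h').symm) h1
          · exact absurd ((hN p h').trans h.symm) h1
        · rintro ⟨h1, h2, h3⟩
          exact ⟨h3.ne, h1, h2, Or.inl h3⟩
      have hBx : ∀ v, v ≠ u → B s(x, v) = 0 := by
        intro v h1
        apply hB
        intro h
        exact h1 (hN v h)
      set a1 := (A s(x, u)).eval q with ha1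
      set b1 := (B s(x, u)).eval q with hb1
      have a1n : a1 ≠ 0 := hA _
      have hv1 : C (1 + b1 / a1) := hBd x u hxu
      have hden : q + b1 / a1 ≠ 0 := hc.one _ hv1
      have hA'n : q * a1 + b1 ≠ 0 := by
        have : q * a1 + b1 = a1 * (q + b1 / a1) := by field_simp
        rw [this]
        exact mul_ne_zero a1n hden
      suffices hsuf : ∃ (j : ℕ) (P : ℂ[X]), (∀ n : ℕ, P.eval (n : ℂ) =
          (n : ℂ) ^ j * Z (A1 A B X x u) (B1 B x u) n) ∧ P.eval q ≠ 0 by
        obtain ⟨j, P, hP1, hP2⟩ := hsuf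
        refine ⟨j + 1, P, fun n => ?_, hP2⟩
        rw [hP1, Z_one x u nxu hBx, pow_succ]
        ring
      refine ih (contract H x u) (A1 A B X x u) (B1 B x u) hcard hKu ?_ ?_ ?_
      · intro p r hpr
        by_cases h1 : s(p, r) = s(x, u)
        · simp [B1, h1]
        · simp only [B1, h1, if_false]
          apply hB
          intro h
          by_cases hpx : p = x
          · rw [hpx] at h h1
            exact h1 (by rw [hN r h])
          · by_cases hrx : r = x
            · rw [hrx] at h h1
              exact h1 (by rw [hN p h.symm, Sym2.eq_swap])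
            · exact hpr ((hH' p r).2 ⟨hpx, hrx, h⟩)
      · intro e
        by_cases h1 : e = s(x, u)
        · rw [h1]
          simp only [A1, if_true, eval_add, eval_mul, eval_X]
          exact hA'n
        · simp only [A1, h1, if_false]
          exact hA e
      · intro p r hpr
        obtain ⟨g2, g3, hadj⟩ := (hH' p r).1 hpr
        have f1 : s(p, r) ≠ s(x, u) := by
          intro h
          rw [Sym2.eq_iff] at h
          rcases h with ⟨h, -⟩ | ⟨-, h⟩
          · exact g2 h
          · exact g3 h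
        simp only [A1, B1, f1, if_false]
        exact hBd p r hadj

theorem eval_ne_zero' {V : Type} [Fintype V] (G : SimpleGraph V) (hG : ¬ HasK4Minor G)
    {P : ℂ[X]} (hP : IsChromaticPolynomial G P) {q : ℂ} {C : ℂ → Prop} (hq : Cls q C) :
    P.eval q ≠ 0 := by
  classical
  obtain ⟨j, Q, hQ1, hQ2⟩ := main_aux' q C hq _ G (fun _ => (1 : ℂ[X])) (Bw G) le_rfl hG
    (by
      intro u w h
      have : s(u, w) ∉ G.edgeSet := h
      simp only [Bw, this, if_false])
    (by intro e; simp)
    (by
      intro u w h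
      have : s(u, w) ∈ G.edgeSet := h
      simp only [Bw, this, if_true]
      simpa using hq.zero)
  have hPQ : X ^ j * P = Q := by
    apply Polynomial.eq_of_infinite_eval_eq
    have hinf : Set.Infinite (Set.range (fun n : ℕ => ((n + 1 : ℕ) : ℂ))) := by
      apply Set.infinite_range_of_injective
      intro a b hab
      have : ((a + 1 : ℕ) : ℂ) = ((b + 1 : ℕ) : ℂ) := hab
      have := Nat.cast_injective this
      omega
    apply hinf.mono
    rintro _ ⟨n, rfl⟩
    show eval ((n + 1 : ℕ) : ℂ) (X ^ j * P) = eval ((n + 1 : ℕ) : ℂ) Q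
    rw [hQ1 (n + 1), Z_colourings, eval_mul, eval_pow, eval_X, hP (n + 1) (by omega)]
  intro h0
  apply hQ2
  rw [← hPQ, eval_mul, h0, mul_zero]

theorem reach_iff {V : Type} (T : Set (Sym2 V)) (a b : V) :
    (fromEdgeSet T).Reachable a b ↔ (genRel T).r a b := by
  constructor
  · rintro ⟨p⟩
    induction p with
    | nil => exact Relation.EqvGen.refl _
    | cons h _ ih =>
      rw [fromEdgeSet_adj] at h
      exact Relation.EqvGen.trans _ _ _ (Relation.EqvGen.rel _ _ h.1) ih
  · intro h
    induction h with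
    | rel a b hab =>
      by_cases h : a = b
      · rw [h]
      · exact Adj.reachable ((fromEdgeSet_adj T).2 ⟨hab, h⟩)
    | refl a => rfl
    | symm a b _ ih => exact ih.symm
    | trans a b c _ _ ih1 ih2 => exact ih1.trans ih2

theorem card_cc {V : Type} (T : Set (Sym2 V)) :
    Nat.card (fromEdgeSet T).ConnectedComponent = Nat.card (Quotient (genRel T)) :=
  Nat.card_congr (Quot.congrRight (fun a b => reach_iff T a b))

theorem isChrom {V : Type} [Fintype V] [DecidableEq V] (G : SimpleGraph V) [DecidableRel G.Adj] :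
    IsChromaticPolynomial G (∑ A ∈ G.edgeFinset.powerset, ((-1 : ℂ[X]) ^ A.card *
      X ^ Nat.card (fromEdgeSet (↑A : Set (Sym2 V))).ConnectedComponent)) := by
  intro n _
  rw [← Z_colourings, eval_finsetSum]
  unfold Z W
  have h1 : ∀ σ : V → Fin n, ∏ e : Sym2 V, ((1 : ℂ[X]).eval (n : ℂ) +
      (Bw G e).eval (n : ℂ) * dl σ e) =
      ∑ T ∈ G.edgeFinset.powerset, (-1 : ℂ) ^ T.card * ∏ e ∈ T, dl σ e := by
    intro σ
    rw [← Finset.prod_subset (Finset.subset_univ G.edgeFinset)]
    · have : ∀ e ∈ G.edgeFinset, ((1 : ℂ[X]).eval (n : ℂ) + (Bw G e).eval (n : ℂ) * dl σ e) =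
          (-1) * dl σ e + 1 := by
        intro e he
        rw [mem_edgeFinset] at he
        simp only [Bw, he, if_true]
        simp
        ring
      rw [Finset.prod_congr rfl this, Finset.prod_add_one]
      apply Finset.sum_congr rfl
      intro T _
      rw [Finset.prod_mul_distrib, Finset.prod_const]
    · intro e _ he
      rw [mem_edgeFinset] at he
      simp only [Bw, he, if_false]
      simp
  convert (Finset.sum_congr rfl (fun σ _ => h1 σ)).symm using 1
  rw [Finset.sum_comm]
  apply Finset.sum_congr rfl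
  intro T _
  rw [← Finset.mul_sum, card_cc, eval_mul, eval_pow, eval_pow, eval_X, eval_neg, eval_one]
  congr 1
  classical
  have := card_const T n
  rw [Nat.card_eq_fintype_card]
  convert this.symm

theorem main (q : ℂ) (h0 : 0 < ‖q - 1‖) (h1 : ‖q - 1‖ ≤ 5 / 27) {V : Type} [Fintype V]
    [DecidableEq V] (G : SimpleGraph V) [DecidableRel G.Adj] (hG : ¬ HasK4Minor G) :
    (∑ A ∈ G.edgeFinset.powerset, ((-1 : ℂ) ^ A.card *
      q ^ Nat.card (fromEdgeSet (↑A : Set (Sym2 V))).ConnectedComponent)) ≠ 0 := by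
  obtain ⟨C, hC⟩ := exists_cls q h0 h1
  have := eval_ne_zero' G hG (isChrom G) hC
  rw [eval_finsetSum] at this
  simpa using this

end Pool.Agent.H745Z.SP
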